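import Pool.Agent.Helper97.MEI.Asm26
import Pool.Agent.Helper78.MEI.End5

/-!
# Project MEI (M2), row (D): the assembly with small terms in the form `Asm c0 c1 c3`
-/

set_option autoImplicit false

namespace Pool.Agent.Helper97.MEI

open Set Metric MeasureTheory Filter Topology Helper93.MEI Helper80.CW Helper14.CW
open Helper14.MEI2 Pool.Agent.Helper73.MEI Helper82.M2 Helper82.CW Helper41.MEI Helper78.MEI
open Helper33.MEI (Wi)
open scoped RealInnerProductSpace

/-- the assembly with `κ = .26`, small terms `1.85e-4 + Σ (.0039 s + .501 s³)` -/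
theorem asm_97 : Asm 1.85e-4 0.0039 0.501 := by
  intro K σ hσ a c hC S hV
  obtain ⟨B, hB⟩ := frames hC.ha
  exact asm26x (B := B) hC.pm hC.ha hC.hp hC.hz hC.hull hB (s := S) hV.nn
    (fun i => (hV.le_ap hC i).trans (by norm_num)) hV.le

end Pool.Agent.Helper97.MEI
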