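import Pool.Agent.Helper73.MEI.Reg2

/-!
# MEI M2: the edge cells with the exact divergence (reference value `4.58`)
-/

set_option autoImplicit false

namespace Pool.Agent.Helper97.MEI

open Set MeasureTheory Filter Topology Metric
open Helper80.CW Helper22.Wedge Helper22.Sig Helper14.CW Helper14.MEI2 Helper93.MEI
open Helper22.MEI (s t)
open Pool.Agent.Helper95.MEI.Cst
open Pool.Agent.Helper73.MEI
open scoped RealInnerProductSpace Real

section one
variable (b : OrthonormalBasis (Fin 3) ℝ E3) (c : E3) {K : Set E3}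

/-- the part of the core which is missing, weight `4.58 - div F` -/
noncomputable def coE (K : Set E3) : ℝ := ∫ x in AxE b c \ K, (4.58 - dvE b c x)

/-- the integral of `4.58 - div F` over the lens -/
noncomputable def lamE : ℝ := 4.58 * (vAs - vAx) - (fAs - fAx)

theorem J_edge26 (hK : IsCompact K) :
    ∫ x in K ∩ EC b c, (dvE b c x - 1 / 2) ≤
      (fAs - vAs / 2) - 4.08 * lE b c K - 4.08 * xiE b c K + 4.08 * beE b c K
        + coE b c K + lamE := by
  have hKm : MeasurableSet K := hK.isClosed.measurableSet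
  have hKf : volume K ≠ ⊤ := hK.measure_lt_top.ne
  set g : E3 → ℝ := fun x => dvE b c x - 1 / 2 with hg
  have hgc : Continuous g := (dvE_cont b c).sub continuous_const
  have giK : IntegrableOn g K := hgc.continuousOn.integrableOn_compact hK
  have giA : IntegrableOn g (AsE b c) := (intOn_AsE b c).sub (integrableOn_const (AsE_fin b c))
  have h1 := integral_inter_add_sdiff (μ := volume) (s := K ∩ EC b c) (f := g) (AsE_meas b c)
    (giK.mono_set inter_subset_left)
  have e1 : (K ∩ EC b c) ∩ AsE b c = AsE b c ∩ K := by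
    ext x
    constructor
    · rintro ⟨⟨h1, h2⟩, h3⟩; exact ⟨h3, h1⟩
    · rintro ⟨h3, h1⟩; exact ⟨⟨h1, AsE_sub_EC b c h3⟩, h3⟩
  have h2 := integral_inter_add_sdiff (μ := volume) (s := AsE b c) (f := g) hKm giA
  have h3 := integral_inter_add_sdiff (μ := volume) (s := AsE b c \ K) (f := g) (AxE_meas b c)
    (giA.mono_set sdiff_subset)
  have e2 : (AsE b c \ K) ∩ AxE b c = AxE b c \ K := by
    ext x
    constructor
    · rintro ⟨⟨h1, h2⟩, h3⟩; exact ⟨h3, h2⟩
    · rintro ⟨h3, h1⟩; exact ⟨⟨AxE_sub_AsE b c h3, h1⟩, h3⟩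
  have e3 : (AsE b c \ K) \ AxE b c = (AsE b c \ AxE b c) \ K := by
    ext x; simp only [Set.mem_sdiff]; tauto
  have h4 := integral_inter_add_sdiff (μ := volume) (s := AsE b c) (f := g) (AxE_meas b c) giA
  rw [inter_eq_self_of_subset_right (AxE_sub_AsE b c)] at h4
  have h5 := integral_inter_add_sdiff (μ := volume) (s := AsE b c \ AxE b c) (f := g) hKm
    (giA.mono_set sdiff_subset)
  have hA : ∫ x in AsE b c, g x = fAs - vAs / 2 := int_half_As b c
  have hX : ∫ x in AxE b c, g x = fAx - vAx / 2 := int_half_Ax b c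
  rw [e1] at h1
  rw [e2, e3] at h3
  have m3 : MeasurableSet ((K ∩ EC b c) \ AsE b c) := (hKm.inter (EC_meas b c)).diff (AsE_meas b c)
  have m4 : MeasurableSet ((AsE b c \ AxE b c) ∩ K) :=
    ((AsE_meas b c).diff (AxE_meas b c)).inter hKm
  have b3 := int_le (S := (K ∩ EC b c) \ AsE b c) m3
    (ne_top_of_le_ne_top hKf (measure_mono (sdiff_subset.trans inter_subset_left)))
    (g := g) (giK.mono_set (sdiff_subset.trans inter_subset_left)) (m := 4.08) (fun x hx => by
      have := dv_le b c hx.1.2 (fun h => hx.2 (AxE_sub_AsE b c h))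
      show dvE b c x - 1 / 2 ≤ 4.08
      linarith)
  have b4 := int_le (S := (AsE b c \ AxE b c) ∩ K) m4
    (ne_top_of_le_ne_top hKf (measure_mono inter_subset_right))
    (g := g) (giK.mono_set inter_subset_right) (m := 4.08) (fun x hx => by
      have := dv_le b c (AsE_sub_EC b c hx.1.1) hx.1.2
      show dvE b c x - 1 / 2 ≤ 4.08
      linarith)
  have v1 := measureReal_inter_add_sdiff (μ := volume) (s := AsE b c \ AxE b c) hKm
    (ne_top_of_le_ne_top (AsE_fin b c) (measure_mono sdiff_subset))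
  rw [vol_lens] at v1
  have hco : coE b c K = 4.08 * xiE b c K - ∫ x in AxE b c \ K, g x := by
    have hfin : volume (AxE b c \ K) ≠ ⊤ :=
      ne_top_of_le_ne_top (AsE_fin b c) (measure_mono (sdiff_subset.trans (AxE_sub_AsE b c)))
    have e : (fun x : E3 => 4.58 - dvE b c x) = fun x => 4.08 - g x := by
      funext x
      show 4.58 - dvE b c x = 4.08 - (dvE b c x - 1 / 2)
      ring
    have i1 : IntegrableOn (fun _ : E3 => (4.08 : ℝ)) (AxE b c \ K) := integrableOn_const hfin
    have i2 : IntegrableOn g (AxE b c \ K) :=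
      giA.mono_set (sdiff_subset.trans (AxE_sub_AsE b c))
    unfold coE xiE
    rw [e, integral_sub i1 i2, setIntegral_const, smul_eq_mul]
    ring
  rw [hco]
  unfold lE xiE beE lamE
  linarith

/-- **pair of opposite edges**, reference value `4.58` -/
theorem J_pair26 (b' : OrthonormalBasis (Fin 3) ℝ E3) (hK : IsCompact K) :
    (∫ x in K ∩ EC b c, (dvE b c x - 1 / 2)) + (∫ x in K ∩ EC b' c, (dvE b' c x - 1 / 2)) ≤
      (fAs - vAs / 2) + (fAx - vAx / 2)
      + 4.08 * ((vAs - vAx) - lE b c K - lE b' c K)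
      - 4.08 * (xiE b c K + xiE b' c K) + 4.08 * (beE b c K + beE b' c K)
      + (coE b c K + coE b' c K) + lamE := by
  have h1 := J_edge26 b c hK
  have h3 := J_edge26 b' c hK
  have e : (fAs - vAs / 2) + 4.08 * (vAs - vAx) - 2 * (4.08 * (vAs - vAx))
      + (4.58 * (vAs - vAx) - (fAs - fAx)) = (fAx - vAx / 2) := by ring
  unfold lamE at *
  linarith

end one

section global
variable {a : Fin 4 → E3} {K : Set E3} {σ : Measure (E3 × E3)} [IsFiniteMeasure σ]
  {B : Fin 3 → Bool → OrthonormalBasis (Fin 3) ℝ E3}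

/-- **edge inequality**, reference value `4.58` -/
theorem edge_total26 (h : PM K σ) (ha : ∀ i j, i ≠ j → dist (a i) (a j) = 1)
    (hp : ∀ x ∈ K, Pl a x) (hz : ∀ᵐ z ∂σ, Pl a z.1 ∧ ∀ k, bar a k z.1 ≠ 0)
    (hB : ∀ m e, Fr (fun i => a (pr m e i)) (B m e)) :
    ∑ m, (TE (B m false) (cen a) σ + TE (B m true) (cen a) σ) + π / 6
      - 1 / 4 * (σ.real {z | z.1 ∈ T0 a} + ∑ i, σ.real {z | z.1 ∈ Wc a i})
      + 1 / 2 * (volume.real (K ∩ T0 a) + ∑ i, volume.real (K ∩ Wc a i)) ≤
    (π / 6 - 3 / 2 * (√2 / 12) - Helper14.MEI2.Om / 3) +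
      ∑ m, (4.08 * ((vAs - vAx) - lE (B m false) (cen a) K - lE (B m true) (cen a) K)
        - 4.08 * (xiE (B m false) (cen a) K + xiE (B m true) (cen a) K)
        + 4.08 * (beE (B m false) (cen a) K + beE (B m true) (cen a) K)
        + (coE (B m false) (cen a) K + coE (B m true) (cen a) K)) + 3 * lamE := by
  have h1 := vol_dec h ha hp hB
  have h2 := mass_dec ha hz hB
  have h3 := h.total
  have h4 : ∀ m, TE (B m false) (cen a) σ + TE (B m true) (cen a) σ
      + 1 / 4 * (σ.real {z | z.1 ∈ EC (B m false) (cen a)} +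
        σ.real {z | z.1 ∈ EC (B m true) (cen a)})
      - 1 / 2 * (volume.real (K ∩ EC (B m false) (cen a)) +
        volume.real (K ∩ EC (B m true) (cen a))) ≤ (fAs - vAs / 2) + (fAx - vAx / 2)
      + 4.08 * ((vAs - vAx) - lE (B m false) (cen a) K - lE (B m true) (cen a) K)
      - 4.08 * (xiE (B m false) (cen a) K + xiE (B m true) (cen a) K)
      + 4.08 * (beE (B m false) (cen a) K + beE (B m true) (cen a) K)
      + (coE (B m false) (cen a) K + coE (B m true) (cen a) K) + lamE := by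
    intro m
    have k1 := J_pair26 (B m false) (cen a) (B m true) h.cpt
    rw [edge_J (B m false) (cen a) h, edge_J (B m true) (cen a) h] at k1
    linarith
  have k0 := h4 0
  have k1 := h4 1
  have k2 := h4 2
  have k3 := K1v
  rw [Fin.sum_univ_three] at h1 h2 ⊢
  rw [Fin.sum_univ_three]
  have e1 : Pool.Agent.Helper95.MEI.Cst.Om = Helper14.MEI2.Om := rfl
  rw [e1] at k3
  linarith

/-- **the master inequality (*)**, exact divergence, reference value `4.58` -/
theorem star26 (h : PM K σ) (ha : ∀ i j, i ≠ j → dist (a i) (a j) = 1)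
    (hp : ∀ x ∈ K, Pl a x) (hz : ∀ᵐ z ∂σ, Pl a z.1 ∧ ∀ k, bar a k z.1 ≠ 0)
    (hB : ∀ m e, Fr (fun i => a (pr m e i)) (B m e)) :
    ∑ m, (TE (B m false) (cen a) σ + TE (B m true) (cen a) σ
        - (coE (B m false) (cen a) K + coE (B m true) (cen a) K)) - 3 * lamE
      + 3.83 * (∑ i, volume.real (K ∩ Wc a i) - 4 * (Helper14.MEI2.Om / 3 - √2 / 12))
      - 1.58 * (√2 / 12 - volume.real (K ∩ T0 a)) + FT a σ ≤
    4.08 * (volume.real K - Helper82.CW.VM) := by
  have h1 := edge_total26 h ha hp hz hB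
  have h2 := vol_total h ha hp hB
  have h3 := face_total h ha hp hz
  have e1 : FT a σ = (∫ z in {z : E3 × E3 | z.1 ∈ T0 a}, ⟪z.1 - cen a, z.1 - z.2⟫ ∂σ +
      ∑ i, ∫ z in {z : E3 × E3 | z.1 ∈ Wc a i}, ⟪(1 / 4 : ℝ) • (z.1 - a i), z.1 - z.2⟫ ∂σ)
      - 1 / 4 * (σ.real {z | z.1 ∈ T0 a} + ∑ i, σ.real {z | z.1 ∈ Wc a i}) := by
    have hi : ∀ i, Integrable
        (fun z : E3 × E3 => ⟪(1 / 4 : ℝ) • (z.1 - a i), z.1 - z.2⟫) σ := fun i =>
      h.integrable (G := fun y => (1 / 4 : ℝ) • (y - a i)) (by fun_prop)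
    have hi0 : Integrable (fun z : E3 × E3 => ⟪z.1 - cen a, z.1 - z.2⟫) σ :=
      h.integrable (G := fun y => y - cen a) (by fun_prop)
    unfold FT
    rw [integral_sub hi0.integrableOn (integrable_const _)]
    have e2 : ∀ i, ∫ z in {z : E3 × E3 | z.1 ∈ Wc a i},
        (⟪(1 / 4 : ℝ) • (z.1 - a i), z.1 - z.2⟫ - 1 / 4) ∂σ =
        ∫ z in {z : E3 × E3 | z.1 ∈ Wc a i}, ⟪(1 / 4 : ℝ) • (z.1 - a i), z.1 - z.2⟫ ∂σ
        - 1 / 4 * σ.real {z | z.1 ∈ Wc a i} := by
      intro i
      rw [integral_sub (hi i).integrableOn (integrable_const _), setIntegral_const, smul_eq_mul]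
      ring
    rw [Finset.sum_congr rfl fun i _ => e2 i, Finset.sum_sub_distrib, ← Finset.mul_sum,
      setIntegral_const, smul_eq_mul]
    ring
  rw [e1, h3, h2]
  simp only [Fin.sum_univ_three] at h1 ⊢
  linarith

/-- **regime II**, exact divergence, reference value `4.58`, the product bound dropped -/
theorem reg2_star26 (h : PM K σ) (ha : ∀ i j, i ≠ j → dist (a i) (a j) = 1)
    (hp : ∀ x ∈ K, Pl a x) (hz : ∀ᵐ z ∂σ, Pl a z.1 ∧ ∀ k, bar a k z.1 ≠ 0)
    (hB : ∀ m e, Fr (fun i => a (pr m e i)) (B m e)) :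
    FT a σ + 3.83 * (∑ i, volume.real (K ∩ Wc a i) - 4 * (Helper14.MEI2.Om / 3 - √2 / 12))
      - 1.58 * (√2 / 12 - volume.real (K ∩ T0 a))
      - ∑ m, (coE (B m false) (cen a) K + coE (B m true) (cen a) K)
      - 3 * lamE
      - ∑ m, ((∫ z in Pool.Agent.Helper95.MEI.Fub.Zp (fun i => a (pr m false i)) 2 3,
            Pool.Agent.Helper95.MEI.Fub.exn (fun i => a (pr m false i)) z ∂σ) +
          ∫ z in Pool.Agent.Helper95.MEI.Fub.Zp (fun i => a (pr m true i)) 2 3,
            Pool.Agent.Helper95.MEI.Fub.exn (fun i => a (pr m true i)) z ∂σ) ≤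
    4.08 * (volume.real K - Helper82.CW.VM) := by
  have h1 := star26 h ha hp hz hB
  have h2 : ∀ m e, -(∫ z in Pool.Agent.Helper95.MEI.Fub.Zp (fun i => a (pr m e i)) 2 3,
      Pool.Agent.Helper95.MEI.Fub.exn (fun i => a (pr m e i)) z ∂σ) ≤
      TE (B m e) (cen a) σ := by
    intro m e
    have ha' : ∀ i j, i ≠ j → dist ((fun i => a (pr m e i)) i)
        ((fun i => a (pr m e i)) j) = 1 :=
      fun i j hij => ha _ _ (fun h => hij ((pr m e).injective h))
    have hp' : ∀ x ∈ K, Pl (fun i => a (pr m e i)) x := fun x hx => Pl_perm _ (hp x hx)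
    have hc : cen (fun i => a (pr m e i)) = cen a := cen_perm _
    have h3 := TE_ge h ha' hp' (hB m e)
    rw [hc] at h3
    exact h3
  have f00 := h2 0 false
  have f01 := h2 0 true
  have f10 := h2 1 false
  have f11 := h2 1 true
  have f20 := h2 2 false
  have f21 := h2 2 true
  simp only [Fin.sum_univ_three] at h1 ⊢
  linarith

end global

end Pool.Agent.Helper97.MEI
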