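import Pool.Agent.Helper95.MEI.C8
import Pool.Agent.Helper97.MEI.Core

/-!
# MEI M2: the integral of `4.58 - div F` over the lens is at most `6.16e-5`
-/

set_option autoImplicit false

namespace Pool.Agent.Helper97.MEI

open Set Real
open Pool.Agent.Helper95.MEI.Cst

theorem om_hi' : om < 0.33983693 := by
  have h := arctan_hi (x := √2 / 4) (by positivity)
  have h2 : (√2 / 4) ^ 2 = 1 / 8 := by rw [div_pow, Real.sq_sqrt (by norm_num)]; norm_num
  have e : √2 / 4 - (√2 / 4) ^ 3 / 3 + (√2 / 4) ^ 5 / 5 - (√2 / 4) ^ 7 / 7 + (√2 / 4) ^ 9 / 9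
      - (√2 / 4) ^ 11 / 11 + (√2 / 4) ^ 13 / 13
      = √2 / 4 * (1 - 1 / 24 + 1 / 320 - 1 / 3584 + 1 / 36864
        - 1 / 360448 + 1 / 3407872) := by
    have e3 : (√2 / 4) ^ 3 = √2 / 4 * (1 / 8) := by rw [pow_succ, h2]; ring
    have e5 : (√2 / 4) ^ 5 = √2 / 4 * (1 / 8) ^ 2 := by rw [← h2]; ring
    have e7 : (√2 / 4) ^ 7 = √2 / 4 * (1 / 8) ^ 3 := by rw [← h2]; ring
    have e9 : (√2 / 4) ^ 9 = √2 / 4 * (1 / 8) ^ 4 := by rw [← h2]; ring
    have e11 : (√2 / 4) ^ 11 = √2 / 4 * (1 / 8) ^ 5 := by rw [← h2]; ring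
    have e13 : (√2 / 4) ^ 13 = √2 / 4 * (1 / 8) ^ 6 := by rw [← h2]; ring
    rw [e3, e5, e7, e9, e11, e13]
    ring
  rw [e] at h
  have hs : √2 < 1.41421357 := by
    rw [Real.sqrt_lt' (by norm_num)]; norm_num
  unfold om
  refine lt_of_le_of_lt h ?_
  norm_num at *
  linarith

theorem s3pi' : √3 * π < 5.44139812 := by
  have h2 : √3 < 1.73205081 := by
    rw [Real.sqrt_lt' (by norm_num)]; norm_num
  have h4 : π < 3.1415926536 := by have := Real.pi_lt_d20; linarith
  have := mul_lt_mul'' h2 h4 (by positivity) (by positivity)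
  refine lt_trans this ?_
  norm_num

/-- **the constant of one pair of opposite edges** -/
theorem lamE_le : lamE ≤ 6.16e-5 := by
  have hp : lamE = 4.58 * (√2 / 12 + 4 / 3 * om) - om - (4.58 * (11 / 6) - 1) * phm
      + (4.58 / 6 - 1 / 12) * (phm * (√3 * π)) := by
    unfold lamE vAs vAx fAs fAx; ring
  have h1 := om_hi'
  have h2 : √2 < 1.41421357 := by
    rw [Real.sqrt_lt' (by norm_num)]; norm_num
  have h3 : phm * (√3 * π) ≤ phm * 5.44139812 :=
    mul_le_mul_of_nonneg_left s3pi'.le phm_pos.le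
  have h4 : π < 3.1415926536 := by have := Real.pi_lt_d20; linarith
  have h5 : 3.1415926535 < π := by have := Real.pi_gt_d20; linarith
  have h6 := phm_om
  rw [hp]
  norm_num at *
  linarith

end Pool.Agent.Helper97.MEI
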