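import Pool.Agent.Helper97.MEI.Wt

/-!
# MEI M2: the missing part of the core, sum over the six edges
-/

set_option autoImplicit false

namespace Pool.Agent.Helper97.MEI

open Set MeasureTheory
open Helper80.CW Helper14.CW Helper14.MEI2 Helper22.Wedge Helper93.MEI Helper72.MEI
open Pool.Agent.Helper95.MEI.Cst (AsE AxE AsE_eq AxE_eq cs sh dvE dvp dvE_eq)
open Pool.Agent.Helper73.MEI (pr pf)
open scoped RealInnerProductSpace

variable {a : Fin 4 → E3} {b : OrthonormalBasis (Fin 3) ℝ E3}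

theorem dv_co (b : OrthonormalBasis (Fin 3) ℝ E3) (c : E3) {x : E3} (hx : x ∈ AxE b c) :
    4.58 - dvE b c x ≤ Wp (co b c x).1 := by
  rw [AxE_eq] at hx
  obtain ⟨_, h2⟩ := hx
  simp only [mem_ofPred_eq] at h2
  have h3 : (cs b c x).1 = (co b c x).1 := rfl
  have h4 : |(cs b c x).1| ≤ 1 / 2 := by
    have h5 : 0 ≤ √3 * √((cs b c x).2.1 ^ 2 + (cs b c x).2.2 ^ 2) := by positivity
    have h6 : (cs b c x).1 ^ 2 ≤ (1 / 2) ^ 2 := by
      nlinarith [sq_nonneg (cs b c x).2.1, sq_nonneg (cs b c x).2.2]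
    exact abs_le_of_sq_le_sq h6 (by norm_num)
  have h7 := dv_core h4 h2
  rw [dvE_eq, ← h3]
  exact h7

/-- **`∫ (4.58 - div F)` over the missing part of the core of one edge** -/
theorem coE_le (ha : ∀ i j, i ≠ j → dist (a i) (a j) = 1) (hb : Fr a b) {K : Set E3}
    (hKm : MeasurableSet K)
    (hull : ∀ p, (∀ q ∈ K, ‖p - q‖ ≤ 1) → p ∈ K) {s0 s1 : ℝ} (hs0 : 0 ≤ s0) (hs1 : 0 ≤ s1)
    (h0 : ∀ q ∈ K, Qv a 0 q ≤ s0) (h1 : ∀ q ∈ K, Qv a 1 q ≤ s1) :
    coE b (cen a) K ≤ 0.0013 * (s0 + s1) := by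
  have hSm : MeasurableSet (AxE b (cen a) \ K) :=
    (Pool.Agent.Helper95.MEI.Cst.AxE_meas b (cen a)).diff hKm
  have hint : IntegrableOn (fun x => 4.58 - dvE b (cen a) x) (AxE b (cen a) \ K) := by
    have i1 : IntegrableOn (fun _ : E3 => (4.58 : ℝ)) (AxE b (cen a)) :=
      integrableOn_const (Pool.Agent.Helper73.MEI.AxE_fin b (cen a))
    exact (i1.sub (Pool.Agent.Helper95.MEI.Cst.intOn_AxE b (cen a))).mono_set sdiff_subset
  have hle : coE b (cen a) K ≤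
      (∫⁻ x in AxE b (cen a) \ K, ENNReal.ofReal (4.58 - dvE b (cen a) x)).toReal := by
    unfold coE
    rw [integral_eq_lintegral_pos_part_sub_lintegral_neg_part hint]
    linarith [ENNReal.toReal_nonneg (a := ∫⁻ x in AxE b (cen a) \ K,
      ENNReal.ofReal (-(4.58 - dvE b (cen a) x)))]
  refine hle.trans (ENNReal.toReal_le_of_le_ofReal (by positivity) ?_)
  calc ∫⁻ x in AxE b (cen a) \ K, ENNReal.ofReal (4.58 - dvE b (cen a) x)
      ≤ ∫⁻ x in AxE b (cen a) \ K, ENNReal.ofReal (Wp (co b (cen a) x).1) :=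
        setLIntegral_mono' hSm fun x hx => ENNReal.ofReal_le_ofReal (dv_co b (cen a) hx.1)
    _ ≤ ∫⁻ x in co b (cen a) ⁻¹' Lay s0 s1, ENNReal.ofReal (Wp (co b (cen a) x).1) :=
        lintegral_mono_set (ax_sub_lay ha hb hull h0 h1)
    _ = ∫⁻ q in Lay s0 s1, ENNReal.ofReal (Wp q.1) :=
        (co_mp b (cen a)).setLIntegral_comp_preimage_emb (co_emb b (cen a))
          (fun q => ENNReal.ofReal (Wp q.1)) (Lay s0 s1)
    _ ≤ ENNReal.ofReal (0.0013 * (s0 + s1)) := layer_w hs0 hs1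

variable {K : Set E3} {B : Fin 3 → Bool → OrthonormalBasis (Fin 3) ℝ E3}

theorem coE_edge (ha : ∀ i j, i ≠ j → dist (a i) (a j) = 1)
    (hB : ∀ m e, Fr (fun i => a (pr m e i)) (B m e)) (hKm : MeasurableSet K)
    (hull : ∀ p, (∀ q ∈ K, ‖p - q‖ ≤ 1) → p ∈ K) {s : Fin 4 → ℝ} (hs : ∀ i, 0 ≤ s i)
    (hQ : ∀ i, ∀ q ∈ K, Qv a i q ≤ s i) (m : Fin 3) (e : Bool) :
    coE (B m e) (cen a) K ≤ 0.0013 * (s (pf m e 0) + s (pf m e 1)) := by
  have h := coE_le (a := fun i => a (pr m e i)) (dist_pr ha m e) (hB m e) (K := K) hKm hull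
    (hs (pf m e 0)) (hs (pf m e 1)) (hQ (pf m e 0)) (hQ (pf m e 1))
  rw [cen_perm] at h
  exact h

/-- **sum over the six edges** -/
theorem coE_sum (ha : ∀ i j, i ≠ j → dist (a i) (a j) = 1)
    (hB : ∀ m e, Fr (fun i => a (pr m e i)) (B m e)) (hKm : MeasurableSet K)
    (hull : ∀ p, (∀ q ∈ K, ‖p - q‖ ≤ 1) → p ∈ K) {s : Fin 4 → ℝ} (hs : ∀ i, 0 ≤ s i)
    (hQ : ∀ i, ∀ q ∈ K, Qv a i q ≤ s i) :
    ∑ m, (coE (B m false) (cen a) K + coE (B m true) (cen a) K) ≤ 0.0039 * ∑ i, s i := by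
  have h := coE_edge ha hB hKm hull hs hQ
  have h00 := h 0 false
  have h01 := h 0 true
  have h10 := h 1 false
  have h11 := h 1 true
  have h20 := h 2 false
  have h21 := h 2 true
  simp only [Fin.sum_univ_three, Fin.sum_univ_four]
  simp only [pf, Matrix.cons_val_zero, Matrix.cons_val_one] at h00 h01 h10 h11 h20 h21
  linarith

end Pool.Agent.Helper97.MEI
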