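import Pool.Agent.Helper41.MEI.ArcK
import Pool.Agent.Helper97.MEI.Lam
import Pool.Agent.Helper97.MEI.Wt2

/-!
# MEI M2: assembly with `κ = .26` and the exact divergence
-/

set_option autoImplicit false

namespace Pool.Agent.Helper97.MEI

open Set Metric MeasureTheory Helper80.CW Helper14.CW Helper14.MEI2
open Helper93.MEI Helper37.MEI Helper41.MEI
open Pool.Agent.Helper73.MEI (PM TE pf pr pr_apply pf_bij)
open scoped RealInnerProductSpace Real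

section
variable {a : Fin 4 → E3} {K : Set E3} {σ : Measure (E3 × E3)} [IsFiniteMeasure σ]
  {B : Fin 3 → Bool → OrthonormalBasis (Fin 3) ℝ E3}

/-- the master inequality with the face cells, exact divergence -/
theorem star_W26 (h : PM K σ) (ha : ∀ i j, i ≠ j → dist (a i) (a j) = 1)
    (hp : ∀ x ∈ K, Pl a x) (hz : ∀ᵐ z ∂σ, Pl a z.1 ∧ ∀ k, bar a k z.1 ≠ 0)
    (hB : ∀ m e, Fr (fun i => a (pr m e i)) (B m e)) :
    ∑ m, (TE (B m false) (cen a) σ + TE (B m true) (cen a) σ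
        - (coE (B m false) (cen a) K + coE (B m true) (cen a) K)) - 3 * lamE
      + ∑ i, Helper33.MEI.Wi a i K σ 3.83
      + ∫ z in {z : E3 × E3 | z.1 ∈ T0 a}, (⟪z.1 - cen a, z.1 - z.2⟫ - 1 / 4) ∂σ
      - 1.58 * (√2 / 12 - volume.real (K ∩ T0 a)) ≤
    4.08 * (volume.real K - Helper82.CW.VM) := by
  have h1 := star26 h ha hp hz hB
  unfold Pool.Agent.Helper73.MEI.FT at h1
  have h2 : ∑ i, Helper33.MEI.Wi a i K σ 3.83 = 3.83 * (∑ i, volume.real (K ∩ Wc a i) -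
      4 * (Om / 3 - √2 / 12)) + ∑ i, ∫ z in {z : E3 × E3 | z.1 ∈ Wc a i},
        (⟪(1 / 4 : ℝ) • (z.1 - a i), z.1 - z.2⟫ - 1 / 4) ∂σ := by
    unfold Helper33.MEI.Wi
    rw [Finset.sum_add_distrib, ← Finset.mul_sum, Finset.sum_sub_distrib]
    simp only [Finset.sum_const, Finset.card_univ, Fintype.card_fin, nsmul_eq_mul]
    norm_num
  rw [h2]
  linarith

/-- **assembly with signed edge terms**: `κ = .26`, exact divergence -/
theorem asm26_TE (h : PM K σ) (ha : ∀ i j, i ≠ j → dist (a i) (a j) = 1)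
    (hp : ∀ x ∈ K, Pl a x) (hz : ∀ᵐ z ∂σ, Pl a z.1 ∧ ∀ k, bar a k z.1 ≠ 0)
    (hull : ∀ p, (∀ q ∈ K, ‖p - q‖ ≤ 1) → p ∈ K)
    (hB : ∀ m e, Fr (fun i => a (pr m e i)) (B m e)) {s : Fin 4 → ℝ} (hs0 : ∀ i, 0 ≤ s i)
    (hs : ∀ i, s i ≤ 0.2) (hQ : ∀ i, ∀ q ∈ K, Qv a i q ≤ s i) :
    ∑ m, (TE (B m false) (cen a) σ + TE (B m true) (cen a) σ)
      + ∑ i, (Helper33.MEI.Wi a i K σ 3.83 - (0.0039 * s i + 0.501 * s i ^ 3)) - 1.85e-4 ≤
    4.08 * (volume.real K - Helper82.CW.VM) := by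
  have h1 := star_W26 h ha hp hz hB
  have h5 := Pool.Agent.Helper52.MEI.ET_row0 h ha hp
  have h6 := Pool.Agent.Helper52.MEI.tau_20 ha h.cpt hull hs0 hs hQ
  have h7 := coE_sum ha hB h.cpt.isClosed.measurableSet hull hs0 hQ
  have h8 := lamE_le
  have c0 := pow_nonneg (hs0 0) 3
  have c1 := pow_nonneg (hs0 1) 3
  have c2 := pow_nonneg (hs0 2) 3
  have c3 := pow_nonneg (hs0 3) 3
  simp only [Fin.sum_univ_three, Fin.sum_univ_four] at h1 h7 ⊢
  norm_num at h1 h6 h7 h8 ⊢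
  linarith

/-- **regime II** (`κ = .26`, exact divergence) with the losses `l2` -/
theorem asm26x (h : PM K σ) (ha : ∀ i j, i ≠ j → dist (a i) (a j) = 1)
    (hp : ∀ x ∈ K, Pl a x) (hz : ∀ᵐ z ∂σ, Pl a z.1 ∧ ∀ k, bar a k z.1 ≠ 0)
    (hull : ∀ p, (∀ q ∈ K, ‖p - q‖ ≤ 1) → p ∈ K)
    (hB : ∀ m e, Fr (fun i => a (pr m e i)) (B m e)) {s : Fin 4 → ℝ} (hs0 : ∀ i, 0 ≤ s i)
    (hs : ∀ i, s i ≤ 0.2) (hQ : ∀ i, ∀ q ∈ K, Qv a i q ≤ s i) :
    ∑ i, (Helper33.MEI.Wi a i K σ 3.83 - LLs σ a (l2 a) i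
        - (0.0039 * s i + 0.501 * s i ^ 3)) - 1.85e-4 ≤
    4.08 * (volume.real K - Helper82.CW.VM) := by
  have h1 := asm26_TE h ha hp hz hull hB hs0 hs hQ
  have h2 : ∀ m e, -(sL σ a (l2 a) m e false + sL σ a (l2 a) m e true) ≤
      TE (B m e) (cen a) σ := by
    intro m e
    have hc : cen (fun i => a (pr m e i)) = cen a := cen_perm _
    have h3 := TE_ls h (hap ha m e) (hB m e)
    rw [show cen (ap a m e) = cen a from hc] at h3
    exact h3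
  have h9 := sum_LLs (a := a) (σ := σ) (l := l2 a)
  have f0 := h2 0 false
  have f1 := h2 1 false
  have f2 := h2 2 false
  have t0 := h2 0 true
  have t1 := h2 1 true
  have t2 := h2 2 true
  simp only [Fin.sum_univ_three, Fin.sum_univ_four, Fintype.sum_bool] at h1 h9 ⊢
  linarith

end

end Pool.Agent.Helper97.MEI
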