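import Mathlib

/-!
# Project MEI (M2): pointwise inequality of the mass field (real part)
-/

namespace Helper97.MEI.Mass

/-- Bernstein terms -/
theorem bt {x a b : ℝ} (h1 : a ≤ x) (h2 : x ≤ b) (i j : ℕ) : 0 ≤ (x - a) ^ i * (b - x) ^ j := by
  have h3 := sub_nonneg.2 h1
  have h4 := sub_nonneg.2 h2
  positivity

/-- upper bound of `1/E`, first edge -/
theorem inv0 {T : ℝ} (h0 : 0 ≤ T) (h1 : T ≤ 1 / 2) :
    0 ≤ (1 + 4 / 3 * T ^ 2) * (10315 / 10000 - 2 / 5 * T) - 1 := by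
  rcases le_total T (1 / 8) with h | h
  · linarith [bt h0 h 3 0, bt h0 h 2 1, bt h0 h 1 2, bt h0 h 0 3]
  rcases le_total T (3 / 16) with h' | h'
  · linarith [bt h h' 3 0, bt h h' 2 1, bt h h' 1 2, bt h h' 0 3]
  rcases le_total T (1 / 4) with h | h
  · linarith [bt h' h 3 0, bt h' h 2 1, bt h' h 1 2, bt h' h 0 3]
  · linarith [bt h h1 3 0, bt h h1 2 1, bt h h1 1 2, bt h h1 0 3]

/-- upper bound of `1/E`, second edge -/
theorem inv1 {T : ℝ} (h0 : 0 ≤ T) (h1 : T ≤ 1 / 2) :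
    0 ≤ (1 + (1 / 2 - T) ^ 2 / 2 + 4 / 3 * T ^ 2) *
      (10315 / 10000 - 2 / 5 * T - 11 / 25 * (1 / 2 - T) ^ 2) - 1 := by
  rcases le_total T (1 / 8) with h | h
  · linarith [bt h0 h 4 0, bt h0 h 3 1, bt h0 h 2 2, bt h0 h 1 3, bt h0 h 0 4]
  rcases le_total T (3 / 16) with h' | h'
  · linarith [bt h h' 4 0, bt h h' 3 1, bt h h' 2 2, bt h h' 1 3, bt h h' 0 4]
  rcases le_total T (1 / 4) with h | h
  · linarith [bt h' h 4 0, bt h' h 3 1, bt h' h 2 2, bt h' h 1 3, bt h' h 0 4]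
  · linarith [bt h h1 4 0, bt h h1 3 1, bt h h1 2 2, bt h h1 1 3, bt h h1 0 4]

/-- upper bound of `1/E` -/
theorem inv_le {x T : ℝ} (h0 : 0 ≤ T) (h1 : |x| + T ≤ 1 / 2) :
    1 ≤ (1 + x ^ 2 / 2 + 4 / 3 * T ^ 2) * (10315 / 10000 - 2 / 5 * T - 11 / 25 * x ^ 2) := by
  have hx := abs_nonneg x
  have hT : T ≤ 1 / 2 := by linarith
  have hu0 : 0 ≤ x ^ 2 := sq_nonneg x
  have hu1 : x ^ 2 ≤ (1 / 2 - T) ^ 2 := by
    rw [← sq_abs x]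
    exact pow_le_pow_left₀ hx (by linarith) 2
  have k0 := inv0 h0 hT
  have k1 := inv1 h0 hT
  set u := x ^ 2 with hu
  set m := (1 / 2 - T) ^ 2 with hm
  rcases eq_or_lt_of_le (hu0.trans hu1) with h | h
  · have : u = 0 := by linarith
    rw [this]
    linarith
  have k2 : 0 ≤ (m - u) * ((1 + 4 / 3 * T ^ 2) * (10315 / 10000 - 2 / 5 * T) - 1) :=
    mul_nonneg (by linarith) k0
  have k3 : 0 ≤ u * ((1 + m / 2 + 4 / 3 * T ^ 2) *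
      (10315 / 10000 - 2 / 5 * T - 11 / 25 * m) - 1) := mul_nonneg hu0 k1
  have k4 : 0 ≤ u * m * (m - u) := mul_nonneg (mul_nonneg hu0 h.le) (by linarith)
  have k5 : 0 ≤ m * ((1 + u / 2 + 4 / 3 * T ^ 2) *
      (10315 / 10000 - 2 / 5 * T - 11 / 25 * u) - 1) := by
    have e : m * ((1 + u / 2 + 4 / 3 * T ^ 2) *
      (10315 / 10000 - 2 / 5 * T - 11 / 25 * u) - 1) =
      (m - u) * ((1 + 4 / 3 * T ^ 2) * (10315 / 10000 - 2 / 5 * T) - 1) +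
      u * ((1 + m / 2 + 4 / 3 * T ^ 2) * (10315 / 10000 - 2 / 5 * T - 11 / 25 * m) - 1) +
      11 / 50 * (u * m * (m - u)) := by ring
    rw [e]
    positivity
  have := nonneg_of_mul_nonneg_right k5 h
  linarith

/-- the convex function -/
noncomputable def ff (x α β γ d n : ℝ) : ℝ := (x + d) ^ 2 + n ^ 2 + (α + β * d + γ * n) ^ 2

theorem ff_cv (x α β γ : ℝ) {s : ℝ} (h0 : 0 ≤ s) (h1 : s ≤ 1) (d1 n1 d2 n2 : ℝ) :
    ff x α β γ ((1 - s) * d1 + s * d2) ((1 - s) * n1 + s * n2) ≤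
      (1 - s) * ff x α β γ d1 n1 + s * ff x α β γ d2 n2 := by
  have h2 : 0 ≤ s * (1 - s) * ((d1 - d2) ^ 2 + (n1 - n2) ^ 2 +
      (β * (d1 - d2) + γ * (n1 - n2)) ^ 2) :=
    mul_nonneg (mul_nonneg h0 (by linarith)) (by positivity)
  have e : (1 - s) * ff x α β γ d1 n1 + s * ff x α β γ d2 n2 -
      ff x α β γ ((1 - s) * d1 + s * d2) ((1 - s) * n1 + s * n2) =
      s * (1 - s) * ((d1 - d2) ^ 2 + (n1 - n2) ^ 2 +
      (β * (d1 - d2) + γ * (n1 - n2)) ^ 2) := by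
    unfold ff
    ring
  linarith

theorem trap {x α β γ s d1 d2 p1 q1 p2 q2 n : ℝ} (h0 : 0 ≤ s) (h1 : s ≤ 1)
    (k1 : ff x α β γ d1 p1 ≤ 1) (k2 : ff x α β γ d1 q1 ≤ 1)
    (k3 : ff x α β γ d2 p2 ≤ 1) (k4 : ff x α β γ d2 q2 ≤ 1)
    (hn1 : (1 - s) * p1 + s * p2 ≤ n) (hn2 : n ≤ (1 - s) * q1 + s * q2) :
    ff x α β γ ((1 - s) * d1 + s * d2) n ≤ 1 := by
  have hs : 0 ≤ 1 - s := by linarith
  have c1 : ff x α β γ ((1 - s) * d1 + s * d2) ((1 - s) * p1 + s * p2) ≤ 1 := by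
    have := ff_cv x α β γ h0 h1 d1 p1 d2 p2
    have a1 := mul_le_mul_of_nonneg_left k1 hs
    have a2 := mul_le_mul_of_nonneg_left k3 h0
    linarith
  have c2 : ff x α β γ ((1 - s) * d1 + s * d2) ((1 - s) * q1 + s * q2) ≤ 1 := by
    have := ff_cv x α β γ h0 h1 d1 q1 d2 q2
    have a1 := mul_le_mul_of_nonneg_left k2 hs
    have a2 := mul_le_mul_of_nonneg_left k4 h0
    linarith
  set D := (1 - s) * d1 + s * d2
  set P := (1 - s) * p1 + s * p2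
  set Q := (1 - s) * q1 + s * q2
  rcases eq_or_lt_of_le (hn1.trans hn2) with h | h
  · have : n = P := by linarith
    rw [this]
    exact c1
  have hPQ : 0 < Q - P := by linarith
  set t := (n - P) / (Q - P) with ht
  have t0 : 0 ≤ t := div_nonneg (by linarith) hPQ.le
  have t1 : t ≤ 1 := by
    rw [ht, div_le_one hPQ]
    linarith
  have c3 := ff_cv x α β γ t0 t1 D P D Q
  have e1 : (1 - t) * D + t * D = D := by ring
  have e2 : (1 - t) * P + t * Q = n := by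
    have : t * (Q - P) = n - P := by
      rw [ht]
      field_simp
    linarith
  rw [e1, e2] at c3
  have a1 := mul_le_mul_of_nonneg_left c1 (show 0 ≤ 1 - t by linarith)
  have a2 := mul_le_mul_of_nonneg_left c2 t0
  linarith

/-- right side -/
noncomputable def Kx (x d k : ℝ) : ℝ :=
  10315 / 10000 - 11 / 25 * x ^ 2 - 231 / 400 * x * (x + d) - k

section
variable {x : ℝ}

theorem a0N (h1 : -(1 / 2) ≤ x) (h2 : x ≤ 1 / 2) :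
    (x + 0) ^ 2 + (2 / 5) ^ 2 + (Kx x 0 0 / (231 / 200)) ^ 2 ≤ 1 := by
  unfold Kx
  rcases le_total x 0 with h | h
  · linarith [bt h1 h 4 0, bt h1 h 3 1, bt h1 h 2 2, bt h1 h 1 3, bt h1 h 0 4]
  · linarith [bt h h2 4 0, bt h h2 3 1, bt h h2 2 2, bt h h2 1 3, bt h h2 0 4]

theorem a1N (h1 : -(1 / 2) ≤ x) (h2 : x ≤ 1 / 2) :
    (x + 0) ^ 2 + (2 / 5) ^ 2 +
      ((Kx x 0 0 + 2 / 5 * (3 / 2 - 0 - 2 / 5)) / (172068 / 100000)) ^ 2 ≤ 1 := by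
  unfold Kx
  linarith [bt h1 h2 4 0, bt h1 h2 3 1, bt h1 h2 2 2, bt h1 h2 1 3, bt h1 h2 0 4]

/-- the crossing -/
noncomputable def ns (x d : ℝ) : ℝ := 5774 / 10000 - 8 / 25 * (x + d) ^ 2 + d / 3

theorem a1s (h1 : -(1 / 2) ≤ x) (h2 : x ≤ 1 / 2) :
    (x + 0) ^ 2 + (ns x 0) ^ 2 +
      ((Kx x 0 0 + 2 / 5 * (3 / 2 - 0 - ns x 0)) / (172068 / 100000)) ^ 2 ≤ 1 := by
  unfold Kx ns
  rcases le_total x 0 with h | h
  · linarith [bt h1 h 4 0, bt h1 h 3 1, bt h1 h 2 2, bt h1 h 1 3, bt h1 h 0 4]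
  · linarith [bt h h2 4 0, bt h h2 3 1, bt h h2 2 2, bt h h2 1 3, bt h h2 0 4]

theorem a2s (h1 : -(1 / 2) ≤ x) (h2 : x ≤ 1 / 2) :
    (x + 0) ^ 2 + (ns x 0) ^ 2 +
      ((Kx x 0 0 - 2 / 5 * (3 * ns x 0 - 3 / 2)) / (231 / 200)) ^ 2 ≤ 1 := by
  unfold Kx ns
  rcases le_total x 0 with h | h
  · linarith [bt h1 h 4 0, bt h1 h 3 1, bt h1 h 2 2, bt h1 h 1 3, bt h1 h 0 4]
  · linarith [bt h h2 4 0, bt h h2 3 1, bt h h2 2 2, bt h h2 1 3, bt h h2 0 4]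

theorem a2m (h1 : -(1 / 2) ≤ x) (h2 : x ≤ 1 / 2) :
    (x + 0) ^ 2 + (2 / 3 - |x| / 3) ^ 2 +
      ((Kx x 0 0 - 2 / 5 * (3 * (2 / 3 - |x| / 3) - 3 / 2)) / (231 / 200)) ^ 2 ≤ 1 := by
  unfold Kx
  rcases le_total x 0 with h | h
  · rw [abs_of_nonpos h]
    linarith [bt h1 h 4 0, bt h1 h 3 1, bt h1 h 2 2, bt h1 h 1 3, bt h1 h 0 4]
  · rw [abs_of_nonneg h]
    linarith [bt h h2 4 0, bt h h2 3 1, bt h h2 2 2, bt h h2 1 3, bt h h2 0 4]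

theorem b0N (h1 : -(1 / 2) ≤ x) (h2 : x ≤ 1 / 2) :
    (x + 3 / 50) ^ 2 + (2 / 5) ^ 2 + (Kx x (3 / 50) 0 / (231 / 200)) ^ 2 ≤ 1 := by
  unfold Kx
  rcases le_total x 0 with h | h
  · linarith [bt h1 h 4 0, bt h1 h 3 1, bt h1 h 2 2, bt h1 h 1 3, bt h1 h 0 4]
  · linarith [bt h h2 4 0, bt h h2 3 1, bt h h2 2 2, bt h h2 1 3, bt h h2 0 4]

theorem b1N (h1 : -(1 / 2) ≤ x) (h2 : x ≤ 1 / 2) :
    (x + 3 / 50) ^ 2 + (2 / 5) ^ 2 +
      ((Kx x (3 / 50) 0 + 2 / 5 * (3 / 2 - 3 / 50 - 2 / 5)) / (172068 / 100000)) ^ 2 ≤ 1 := by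
  unfold Kx
  linarith [bt h1 h2 4 0, bt h1 h2 3 1, bt h1 h2 2 2, bt h1 h2 1 3, bt h1 h2 0 4]

theorem b1s (h1 : -(1 / 2) ≤ x) (h2 : x ≤ 1 / 2) :
    (x + 3 / 50) ^ 2 + (ns x (3 / 50)) ^ 2 +
      ((Kx x (3 / 50) 0 + 2 / 5 * (3 / 2 - 3 / 50 - ns x (3 / 50))) /
        (172068 / 100000)) ^ 2 ≤ 1 := by
  unfold Kx ns
  rcases le_total x 0 with h | h
  · linarith [bt h1 h 4 0, bt h1 h 3 1, bt h1 h 2 2, bt h1 h 1 3, bt h1 h 0 4]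
  · linarith [bt h h2 4 0, bt h h2 3 1, bt h h2 2 2, bt h h2 1 3, bt h h2 0 4]

theorem b2s (h1 : -(1 / 2) ≤ x) (h2 : x ≤ 1 / 2) :
    (x + 3 / 50) ^ 2 + (ns x (3 / 50)) ^ 2 +
      ((Kx x (3 / 50) 0 - 2 / 5 * (3 * ns x (3 / 50) - 3 / 2)) / (231 / 200)) ^ 2 ≤ 1 := by
  unfold Kx ns
  rcases le_total x 0 with h | h
  · linarith [bt h1 h 4 0, bt h1 h 3 1, bt h1 h 2 2, bt h1 h 1 3, bt h1 h 0 4]
  rcases le_total x (1 / 4) with h' | h'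
  · linarith [bt h h' 4 0, bt h h' 3 1, bt h h' 2 2, bt h h' 1 3, bt h h' 0 4]
  · linarith [bt h' h2 4 0, bt h' h2 3 1, bt h' h2 2 2, bt h' h2 1 3, bt h' h2 0 4]

theorem b2m (h1 : -(1 / 2) ≤ x) (h2 : x ≤ 1 / 2) :
    (x + 3 / 50) ^ 2 + (2 / 3 - |x| / 3) ^ 2 +
      ((Kx x (3 / 50) 0 - 2 / 5 * (3 * (2 / 3 - |x| / 3) - 3 / 2)) / (231 / 200)) ^ 2 ≤ 1 := by
  unfold Kx
  rcases le_total x 0 with h | h
  · rw [abs_of_nonpos h]
    linarith [bt h1 h 4 0, bt h1 h 3 1, bt h1 h 2 2, bt h1 h 1 3, bt h1 h 0 4]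
  · rw [abs_of_nonneg h]
    linarith [bt h h2 4 0, bt h h2 3 1, bt h h2 2 2, bt h h2 1 3, bt h h2 0 4]

theorem c0N (h1 : -(1 / 2) ≤ x) (h2 : x ≤ 1 / 2) :
    (x + 6 / 25) ^ 2 + (2 / 5) ^ 2 + (Kx x (6 / 25) (3 / 4) / (231 / 200)) ^ 2 ≤ 1 := by
  unfold Kx
  linarith [bt h1 h2 4 0, bt h1 h2 3 1, bt h1 h2 2 2, bt h1 h2 1 3, bt h1 h2 0 4]

theorem c1N (h1 : -(1 / 2) ≤ x) (h2 : x ≤ 1 / 2) :
    (x + 6 / 25) ^ 2 + (2 / 5) ^ 2 +
      ((Kx x (6 / 25) (3 / 4) + 2 / 5 * (3 / 2 - 6 / 25 - 2 / 5)) /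
        (172068 / 100000)) ^ 2 ≤ 1 := by
  unfold Kx
  linarith [bt h1 h2 4 0, bt h1 h2 3 1, bt h1 h2 2 2, bt h1 h2 1 3, bt h1 h2 0 4]

theorem c1s (h1 : -(1 / 2) ≤ x) (h2 : x ≤ 1 / 2) :
    (x + 6 / 25) ^ 2 + (ns x (6 / 25)) ^ 2 +
      ((Kx x (6 / 25) (3 / 4) + 2 / 5 * (3 / 2 - 6 / 25 - ns x (6 / 25))) /
        (172068 / 100000)) ^ 2 ≤ 1 := by
  unfold Kx ns
  linarith [bt h1 h2 4 0, bt h1 h2 3 1, bt h1 h2 2 2, bt h1 h2 1 3, bt h1 h2 0 4]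

theorem c2s (h1 : -(1 / 2) ≤ x) (h2 : x ≤ 1 / 2) :
    (x + 6 / 25) ^ 2 + (ns x (6 / 25)) ^ 2 +
      ((Kx x (6 / 25) (3 / 4) - 2 / 5 * (3 * ns x (6 / 25) - 3 / 2)) / (231 / 200)) ^ 2 ≤ 1 := by
  unfold Kx ns
  linarith [bt h1 h2 4 0, bt h1 h2 3 1, bt h1 h2 2 2, bt h1 h2 1 3, bt h1 h2 0 4]

theorem c2m (h1 : -(1 / 2) ≤ x) (h2 : x ≤ 1 / 2) :
    (x + 6 / 25) ^ 2 + (2 / 3 - |x| / 3) ^ 2 +
      ((Kx x (6 / 25) (3 / 4) - 2 / 5 * (3 * (2 / 3 - |x| / 3) - 3 / 2)) /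
        (231 / 200)) ^ 2 ≤ 1 := by
  unfold Kx
  rcases le_total x 0 with h | h
  · rw [abs_of_nonpos h]
    linarith [bt h1 h 4 0, bt h1 h 3 1, bt h1 h 2 2, bt h1 h 1 3, bt h1 h 0 4]
  · rw [abs_of_nonneg h]
    linarith [bt h h2 4 0, bt h h2 3 1, bt h h2 2 2, bt h h2 1 3, bt h h2 0 4]

end

/-- coefficient of `d` -/
theorem ffe (x α β γ d n v : ℝ) (h : α + β * d + γ * n = v) :
    ff x α β γ d n = (x + d) ^ 2 + n ^ 2 + v ^ 2 := by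
  unfold ff
  rw [h]

theorem fin {x d n U v : ℝ} (hU : 0 ≤ U) (hs : (x + d) ^ 2 + n ^ 2 + U ^ 2 = 1) (hv : U < v)
    (h : (x + d) ^ 2 + n ^ 2 + v ^ 2 ≤ 1) : False := by
  have : U ^ 2 < v ^ 2 := pow_lt_pow_left₀ hv hU (by norm_num)
  linarith

theorem coreA {x d n U : ℝ} (h1 : -(1 / 2) ≤ x) (h2 : x ≤ 1 / 2) (hd0 : 0 ≤ d)
    (hd : d ≤ 3 / 50) (hn0 : 0 ≤ n) (hnm : n ≤ 2 / 3 - |x| / 3) (hU : 0 ≤ U)
    (hs : (x + d) ^ 2 + n ^ 2 + U ^ 2 = 1) (l0 : 231 / 200 * U < Kx x d 0)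
    (l1 : 172068 / 100000 * U < Kx x d 0 + 2 / 5 * (3 / 2 - d - n))
    (l2 : 231 / 200 * U < Kx x d 0 - 2 / 5 * (3 * n - 3 / 2)) : False := by
  set s := d / (3 / 50) with hsd
  have s0 : 0 ≤ s := div_nonneg hd0 (by norm_num)
  have s1 : s ≤ 1 := by
    rw [hsd, div_le_one (by norm_num)]
    exact hd
  have ed : (1 - s) * 0 + s * (3 / 50) = d := by
    rw [hsd]; ring
  rcases le_total n (2 / 5) with hN | hN
  · have e : ∀ d n : ℝ, (10315 / 10000 - 11 / 25 * x ^ 2 - 231 / 400 * x * x) / (231 / 200) +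
        (-(231 / 400 * x) / (231 / 200)) * d + 0 * n = Kx x d 0 / (231 / 200) := by
      intro d n; unfold Kx; ring
    have v1 := a0N h1 h2
    have v2 := b0N h1 h2
    have z : ∀ d v : ℝ, (x + d) ^ 2 + (2 / 5 : ℝ) ^ 2 + v ^ 2 ≤ 1 →
        (x + d) ^ 2 + (0 : ℝ) ^ 2 + v ^ 2 ≤ 1 := by
      intro d v h; linarith
    have t := trap (x := x) (n := n) (p1 := 0) (p2 := 0) (q1 := 2 / 5) (q2 := 2 / 5)
      (d1 := 0) (d2 := 3 / 50)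
      (α := (10315 / 10000 - 11 / 25 * x ^ 2 - 231 / 400 * x * x) / (231 / 200))
      (β := -(231 / 400 * x) / (231 / 200)) (γ := 0) s0 s1
      (by rw [ffe _ _ _ _ _ _ _ (e _ _)]; exact z _ _ v1)
      (by rw [ffe _ _ _ _ _ _ _ (e _ _)]; exact v1)
      (by rw [ffe _ _ _ _ _ _ _ (e _ _)]; exact z _ _ v2)
      (by rw [ffe _ _ _ _ _ _ _ (e _ _)]; exact v2)
      (by linarith) (by linarith)
    rw [ed, ffe _ _ _ _ _ _ _ (e _ _)] at t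
    refine fin hU hs ?_ t
    rw [lt_div_iff₀ (by norm_num)]
    linarith
  rcases le_total n ((1 - s) * ns x 0 + s * ns x (3 / 50)) with hS | hS
  · have e : ∀ d n : ℝ, (10315 / 10000 - 11 / 25 * x ^ 2 - 231 / 400 * x * x + 3 / 5) /
        (172068 / 100000) + ((-(231 / 400 * x) - 2 / 5) / (172068 / 100000)) * d +
        (-(2 / 5) / (172068 / 100000)) * n =
        (Kx x d 0 + 2 / 5 * (3 / 2 - d - n)) / (172068 / 100000) := by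
      intro d n; unfold Kx; ring
    have t := trap (x := x) (n := n) (p1 := 2 / 5) (p2 := 2 / 5) (q1 := ns x 0)
      (q2 := ns x (3 / 50)) (d1 := 0) (d2 := 3 / 50)
      (α := (10315 / 10000 - 11 / 25 * x ^ 2 - 231 / 400 * x * x + 3 / 5) / (172068 / 100000))
      (β := (-(231 / 400 * x) - 2 / 5) / (172068 / 100000))
      (γ := -(2 / 5) / (172068 / 100000)) s0 s1
      (by rw [ffe _ _ _ _ _ _ _ (e _ _)]; exact a1N h1 h2)
      (by rw [ffe _ _ _ _ _ _ _ (e _ _)]; exact a1s h1 h2)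
      (by rw [ffe _ _ _ _ _ _ _ (e _ _)]; exact b1N h1 h2)
      (by rw [ffe _ _ _ _ _ _ _ (e _ _)]; exact b1s h1 h2)
      (by linarith) hS
    rw [ed, ffe _ _ _ _ _ _ _ (e _ _)] at t
    refine fin hU hs ?_ t
    rw [lt_div_iff₀ (by norm_num)]
    linarith
  · have e : ∀ d n : ℝ, (10315 / 10000 - 11 / 25 * x ^ 2 - 231 / 400 * x * x + 3 / 5) /
        (231 / 200) + (-(231 / 400 * x) / (231 / 200)) * d +
        (-(6 / 5) / (231 / 200)) * n =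
        (Kx x d 0 - 2 / 5 * (3 * n - 3 / 2)) / (231 / 200) := by
      intro d n; unfold Kx; ring
    have t := trap (x := x) (n := n) (q1 := 2 / 3 - |x| / 3) (q2 := 2 / 3 - |x| / 3)
      (p1 := ns x 0) (p2 := ns x (3 / 50)) (d1 := 0) (d2 := 3 / 50)
      (α := (10315 / 10000 - 11 / 25 * x ^ 2 - 231 / 400 * x * x + 3 / 5) / (231 / 200))
      (β := -(231 / 400 * x) / (231 / 200)) (γ := -(6 / 5) / (231 / 200)) s0 s1
      (by rw [ffe _ _ _ _ _ _ _ (e _ _)]; exact a2s h1 h2)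
      (by rw [ffe _ _ _ _ _ _ _ (e _ _)]; exact a2m h1 h2)
      (by rw [ffe _ _ _ _ _ _ _ (e _ _)]; exact b2s h1 h2)
      (by rw [ffe _ _ _ _ _ _ _ (e _ _)]; exact b2m h1 h2)
      hS (by linarith)
    rw [ed, ffe _ _ _ _ _ _ _ (e _ _)] at t
    refine fin hU hs ?_ t
    rw [lt_div_iff₀ (by norm_num)]
    linarith

theorem coreB {x d n U : ℝ} (h1 : -(1 / 2) ≤ x) (h2 : x ≤ 1 / 2) (hd0 : 3 / 50 ≤ d)
    (hd : d ≤ 6 / 25) (hn0 : 0 ≤ n) (hnm : n ≤ 2 / 3 - |x| / 3) (hU : 0 ≤ U)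
    (hs : (x + d) ^ 2 + n ^ 2 + U ^ 2 = 1)
    (l0 : 231 / 200 * U < Kx x d (25 / 6 * (d - 3 / 50)))
    (l1 : 172068 / 100000 * U < Kx x d (25 / 6 * (d - 3 / 50)) + 2 / 5 * (3 / 2 - d - n))
    (l2 : 231 / 200 * U < Kx x d (25 / 6 * (d - 3 / 50)) - 2 / 5 * (3 * n - 3 / 2)) :
    False := by
  set s := (d - 3 / 50) / (9 / 50) with hsd
  have s0 : 0 ≤ s := div_nonneg (by linarith) (by norm_num)
  have s1 : s ≤ 1 := by
    rw [hsd, div_le_one (by norm_num)]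
    linarith
  have ed : (1 - s) * (3 / 50) + s * (6 / 25) = d := by
    rw [hsd]; ring
  have n1 : 25 / 6 * ((3 / 50 : ℝ) - 3 / 50) = 0 := by norm_num
  have n2 : 25 / 6 * ((6 / 25 : ℝ) - 3 / 50) = 3 / 4 := by norm_num
  rcases le_total n (2 / 5) with hN | hN
  · have e : ∀ d n : ℝ, (10315 / 10000 - 11 / 25 * x ^ 2 - 231 / 400 * x * x + 1 / 4) /
        (231 / 200) + ((-(231 / 400 * x) - 25 / 6) / (231 / 200)) * d + 0 * n =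
        Kx x d (25 / 6 * (d - 3 / 50)) / (231 / 200) := by
      intro d n; unfold Kx; ring
    have v1 := b0N h1 h2
    have v2 := c0N h1 h2
    have z : ∀ d v : ℝ, (x + d) ^ 2 + (2 / 5 : ℝ) ^ 2 + v ^ 2 ≤ 1 →
        (x + d) ^ 2 + (0 : ℝ) ^ 2 + v ^ 2 ≤ 1 := by
      intro d v h; linarith
    have t := trap (x := x) (n := n) (p1 := 0) (p2 := 0) (q1 := 2 / 5) (q2 := 2 / 5)
      (d1 := 3 / 50) (d2 := 6 / 25)
      (α := (10315 / 10000 - 11 / 25 * x ^ 2 - 231 / 400 * x * x + 1 / 4) / (231 / 200))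
      (β := (-(231 / 400 * x) - 25 / 6) / (231 / 200)) (γ := 0) s0 s1
      (by rw [ffe _ _ _ _ _ _ _ (e _ _), n1]; exact z _ _ v1)
      (by rw [ffe _ _ _ _ _ _ _ (e _ _), n1]; exact v1)
      (by rw [ffe _ _ _ _ _ _ _ (e _ _), n2]; exact z _ _ v2)
      (by rw [ffe _ _ _ _ _ _ _ (e _ _), n2]; exact v2)
      (by linarith) (by linarith)
    rw [ed, ffe _ _ _ _ _ _ _ (e _ _)] at t
    refine fin hU hs ?_ t
    rw [lt_div_iff₀ (by norm_num)]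
    linarith
  rcases le_total n ((1 - s) * ns x (3 / 50) + s * ns x (6 / 25)) with hS | hS
  · have e : ∀ d n : ℝ, (10315 / 10000 - 11 / 25 * x ^ 2 - 231 / 400 * x * x + 1 / 4 + 3 / 5) /
        (172068 / 100000) + ((-(231 / 400 * x) - 25 / 6 - 2 / 5) / (172068 / 100000)) * d +
        (-(2 / 5) / (172068 / 100000)) * n =
        (Kx x d (25 / 6 * (d - 3 / 50)) + 2 / 5 * (3 / 2 - d - n)) / (172068 / 100000) := by
      intro d n; unfold Kx; ring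
    have t := trap (x := x) (n := n) (p1 := 2 / 5) (p2 := 2 / 5) (q1 := ns x (3 / 50))
      (q2 := ns x (6 / 25)) (d1 := 3 / 50) (d2 := 6 / 25)
      (α := (10315 / 10000 - 11 / 25 * x ^ 2 - 231 / 400 * x * x + 1 / 4 + 3 / 5) /
        (172068 / 100000))
      (β := (-(231 / 400 * x) - 25 / 6 - 2 / 5) / (172068 / 100000))
      (γ := -(2 / 5) / (172068 / 100000)) s0 s1
      (by rw [ffe _ _ _ _ _ _ _ (e _ _), n1]; exact b1N h1 h2)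
      (by rw [ffe _ _ _ _ _ _ _ (e _ _), n1]; exact b1s h1 h2)
      (by rw [ffe _ _ _ _ _ _ _ (e _ _), n2]; exact c1N h1 h2)
      (by rw [ffe _ _ _ _ _ _ _ (e _ _), n2]; exact c1s h1 h2)
      (by linarith) hS
    rw [ed, ffe _ _ _ _ _ _ _ (e _ _)] at t
    refine fin hU hs ?_ t
    rw [lt_div_iff₀ (by norm_num)]
    linarith
  · have e : ∀ d n : ℝ, (10315 / 10000 - 11 / 25 * x ^ 2 - 231 / 400 * x * x + 1 / 4 + 3 / 5) /
        (231 / 200) + ((-(231 / 400 * x) - 25 / 6) / (231 / 200)) * d +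
        (-(6 / 5) / (231 / 200)) * n =
        (Kx x d (25 / 6 * (d - 3 / 50)) - 2 / 5 * (3 * n - 3 / 2)) / (231 / 200) := by
      intro d n; unfold Kx; ring
    have t := trap (x := x) (n := n) (q1 := 2 / 3 - |x| / 3) (q2 := 2 / 3 - |x| / 3)
      (p1 := ns x (3 / 50)) (p2 := ns x (6 / 25)) (d1 := 3 / 50) (d2 := 6 / 25)
      (α := (10315 / 10000 - 11 / 25 * x ^ 2 - 231 / 400 * x * x + 1 / 4 + 3 / 5) /
        (231 / 200))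
      (β := (-(231 / 400 * x) - 25 / 6) / (231 / 200)) (γ := -(6 / 5) / (231 / 200)) s0 s1
      (by rw [ffe _ _ _ _ _ _ _ (e _ _), n1]; exact b2s h1 h2)
      (by rw [ffe _ _ _ _ _ _ _ (e _ _), n1]; exact b2m h1 h2)
      (by rw [ffe _ _ _ _ _ _ _ (e _ _), n2]; exact c2s h1 h2)
      (by rw [ffe _ _ _ _ _ _ _ (e _ _), n2]; exact c2m h1 h2)
      hS (by linarith)
    rw [ed, ffe _ _ _ _ _ _ _ (e _ _)] at t
    refine fin hU hs ?_ t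
    rw [lt_div_iff₀ (by norm_num)]
    linarith

/-- **loss pairs** -/
theorem lossL {x δ n U T c : ℝ} (hx : |x| ≤ 1 / 2) (hδ1 : -(3 / 50) ≤ δ)
    (hδ2 : δ ≤ 6 / 25 - 9 / 50 * c) (hc0 : 0 ≤ c) (hc1 : c ≤ 1) (hn0 : 0 ≤ n) (hU : 0 ≤ U)
    (hs : (x + δ) ^ 2 + n ^ 2 + U ^ 2 = 1) (hT0 : 0 ≤ T)
    (hT1 : √2 * U + n - 3 / 2 + |δ| ≤ T) (hT2 : 3 * n - 3 / 2 ≤ T) (hT3 : |x| + T ≤ 1 / 2) :
    c ≤ 231 / 200 * (U + 1 / 2 * x * (x + δ)) * (1 + x ^ 2 / 2 + 4 / 3 * T ^ 2) := by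
  by_contra hcon
  rw [not_le] at hcon
  have hE : 0 < 1 + x ^ 2 / 2 + 4 / 3 * T ^ 2 := by positivity
  have hE1 := inv_le hT0 hT3
  have hx2 : x ^ 2 ≤ 1 / 4 := by
    rw [← sq_abs]
    have := pow_le_pow_left₀ (abs_nonneg x) hx 2
    linarith
  have hTx : T ≤ 1 / 2 := by linarith [abs_nonneg x]
  set h := 10315 / 10000 - 2 / 5 * T - 11 / 25 * x ^ 2 with hh
  have hh1 : 3 / 4 ≤ h := by
    have e1 : |x| ^ 2 ≤ 1 / 2 * |x| := by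
      have := mul_le_mul_of_nonneg_right hx (abs_nonneg x)
      nlinarith
    rw [sq_abs] at e1
    linarith
  -- the linear form
  have hlin : 231 / 200 * (U + 1 / 2 * x * (x + δ)) < h - 3 / 4 * (1 - c) := by
    have h1 : 231 / 200 * (U + 1 / 2 * x * (x + δ)) < c * h := by
      have h2 : c * 1 ≤ c * ((1 + x ^ 2 / 2 + 4 / 3 * T ^ 2) * h) :=
        mul_le_mul_of_nonneg_left hE1 hc0
      have h3 : 231 / 200 * (U + 1 / 2 * x * (x + δ)) * (1 + x ^ 2 / 2 + 4 / 3 * T ^ 2) <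
          (c * h) * (1 + x ^ 2 / 2 + 4 / 3 * T ^ 2) := by
        refine lt_of_lt_of_le hcon ?_
        linarith
      exact lt_of_mul_lt_mul_right h3 hE.le
    have h4 : 3 / 4 * (1 - c) ≤ h * (1 - c) := mul_le_mul_of_nonneg_right hh1 (by linarith)
    linarith
  have hnm : n ≤ 2 / 3 - |x| / 3 := by linarith
  have hr : 1.4142 ≤ √2 := by
    apply Real.le_sqrt_of_sq_le; norm_num
  have hUr : 1.4142 * U ≤ √2 * U := mul_le_mul_of_nonneg_right hr hU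
  rcases le_total 0 δ with hδ | hδ
  · rw [abs_of_nonneg hδ] at hT1
    obtain ⟨h1, h2⟩ := abs_le.1 hx
    rcases le_total δ (3 / 50) with hδ3 | hδ3
    · refine coreA h1 h2 hδ hδ3 hn0 hnm hU hs ?_ ?_ ?_ <;> unfold Kx <;> linarith
    · refine coreB h1 h2 hδ3 (by linarith) hn0 hnm hU hs ?_ ?_ ?_ <;> unfold Kx <;> linarith
  · rw [abs_of_nonpos hδ] at hT1
    obtain ⟨h1, h2⟩ := abs_le.1 hx
    have hnm' : n ≤ 2 / 3 - |(-x)| / 3 := by rw [abs_neg]; exact hnm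
    have hs' : (-x + -δ) ^ 2 + n ^ 2 + U ^ 2 = 1 := by rw [← hs]; ring
    refine coreA (x := -x) (d := -δ) (by linarith) (by linarith) (by linarith) (by linarith)
      hn0 hnm' hU hs' ?_ ?_ ?_ <;> unfold Kx <;> linarith

/-- **all pairs of the cell** -/
theorem pairN {s v w : ℝ} (hs : s ≤ 3 / 25) (hv1 : v ≤ 2 * s)
    (hw : √2 * w ≤ 2 * s - v) : w ≤ 1 / 2 * (1 / 2 - 3 / 2 * v + v ^ 2) := by
  have hr : 1.4142 ≤ √2 := by
    apply Real.le_sqrt_of_sq_le; norm_num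
  by_contra hcon
  rw [not_le] at hcon
  have hv2 : v ≤ 6 / 25 := by linarith
  have h0 : 0 ≤ 1 / 2 * (1 / 2 - 3 / 2 * v + v ^ 2) := by nlinarith
  have h1 : 1.4142 * (1 / 2 * (1 / 2 - 3 / 2 * v + v ^ 2)) ≤
      √2 * (1 / 2 * (1 / 2 - 3 / 2 * v + v ^ 2)) := mul_le_mul_of_nonneg_right hr h0
  have h2 : √2 * (1 / 2 * (1 / 2 - 3 / 2 * v + v ^ 2)) ≤ √2 * w :=
    mul_le_mul_of_nonneg_left hcon.le (by positivity)
  nlinarith

end Helper97.MEI.Mass
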