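import Pool.Agent.Helper97.MEI.MassA
import Pool.Agent.Helper41.MEI.ArcS

/-!
# Project MEI (M2): pointwise inequality of the mass field (geometric part)
-/

namespace Helper97.MEI.Mass

open Set Metric MeasureTheory Helper80.CW Helper14.CW Helper14.MEI2
open Helper93.MEI Helper37.MEI Helper41.MEI
open Pool.Agent.Helper8.MEI (DD DD_pos)
open Pool.Agent.Helper95.MEI.Fub (Zp)
open scoped RealInnerProductSpace Real

/-! ### real form -/

theorem geoL {x y w x' y' w' c : ℝ} (hp1 : |x| + |y| + √2 * w ≤ 1 / 2)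
    (hcell : √2 * |y| ≤ w) (hq1 : |x'| + |y'| - √2 * w' ≤ 3 / 2) (hq2 : √2 * w' ≤ 1 / 2)
    (hqy : |y'| ≤ 1 / 2) (hd : (x - x') ^ 2 + (y - y') ^ 2 + (w - w') ^ 2 = 1)
    (hQ : 0 < x' ^ 2 + y' ^ 2 + w' ^ 2 - x' - 3 / 4) (hx1 : x' ≤ 3 / 50)
    (hx2 : -x' ≤ 6 / 25 - 9 / 50 * c) (hc0 : 0 ≤ c) (hc1 : c ≤ 1) :
    c ≤ 231 / 200 * ((w - w') + 1 / 2 * x * (x - x')) * (1 + x ^ 2 / 2 + 4 * (y ^ 2 + w ^ 2)) := by
  have hr : 1.4142 ≤ √2 := by
    apply Real.le_sqrt_of_sq_le; norm_num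
  have h2 : √2 * √2 = 2 := Real.mul_self_sqrt (by norm_num)
  have hy0 := abs_nonneg y
  have hw0 : 0 ≤ w := le_trans (by positivity) hcell
  have hxa := abs_nonneg x
  have hyq : y' ^ 2 ≤ 1 / 4 := by
    rw [← sq_abs]
    have := pow_le_pow_left₀ (abs_nonneg y') hqy 2
    linarith
  have hw' : w' ≤ 0 := by
    by_contra hcon
    rw [not_le] at hcon
    have h3 : 1.4142 * w' ≤ √2 * w' := mul_le_mul_of_nonneg_right hr hcon.le
    have h4 : w' ≤ 0.36 := by linarith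
    have h5 : w' ^ 2 ≤ 0.36 ^ 2 := pow_le_pow_left₀ hcon.le h4 2
    have h6 : x' ^ 2 - x' ≤ 0.3 := by
      have : 0 ≤ (3 / 50 - x') * (x' + 6 / 25) := mul_nonneg (by linarith) (by linarith)
      nlinarith
    norm_num at h5
    linarith
  have hU : 0 ≤ w - w' := by linarith
  have hn : 0 ≤ |y - y'| := abs_nonneg _
  have hn1 : |y - y'| ≤ |y| + |y'| := abs_sub y y'
  have hyw : 2 * |y| ≤ √2 * w := by
    have := mul_le_mul_of_nonneg_left hcell (show 0 ≤ √2 by positivity)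
    rw [← mul_assoc, h2] at this
    exact this
  have hwp : 0 ≤ √2 * w := by positivity
  have hs : (x + -x') ^ 2 + |y - y'| ^ 2 + (w - w') ^ 2 = 1 := by
    rw [sq_abs, ← hd]
    ring
  have key := lossL (x := x) (δ := -x') (n := |y - y'|) (U := w - w') (T := √2 * w + |y|)
    (c := c) (by linarith) (by linarith) hx2 hc0 hc1 hn hU hs (by positivity)
    (by rw [abs_neg, mul_sub]; linarith) (by linarith) (by linarith)
  have e1 : x * (x + -x') = x * (x - x') := by ring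
  have e2 : 231 / 200 * ((w - w') + 1 / 2 * x * (x + -x')) =
    231 / 200 * ((w - w') + 1 / 2 * x * (x - x')) := by ring
  rw [e2] at key
  set V := 231 / 200 * ((w - w') + 1 / 2 * x * (x - x')) with hV
  have hT : 4 / 3 * (√2 * w + |y|) ^ 2 ≤ 4 * (y ^ 2 + w ^ 2) := by
    have h5 := sq_nonneg (w - √2 * |y|)
    have h6 : (√2 * w + |y|) ^ 2 + (w - √2 * |y|) ^ 2 = 3 * (w ^ 2 + y ^ 2) := by
      rw [← sq_abs y]
      linear_combination (w ^ 2 + |y| ^ 2) * h2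
    linarith
  have hE : 0 < 1 + x ^ 2 / 2 + 4 / 3 * (√2 * w + |y|) ^ 2 := by positivity
  have hV0 : 0 ≤ V := by
    by_contra hcon
    rw [not_le] at hcon
    have := mul_neg_of_neg_of_pos hcon hE
    linarith
  have h7 := mul_le_mul_of_nonneg_left hT hV0
  linarith

theorem geoN {x y w x' y' w' s : ℝ} (hs : s ≤ 3 / 25) (hp1 : |x| + |y| + √2 * w ≤ 1 / 2)
    (hcell : √2 * |y| ≤ w) (hq2 : √2 * w' ≤ 1 / 2) (hqx : |x'| ≤ 1 / 2)
    (hqy : |y'| ≤ 1 / 2) (hd : (x - x') ^ 2 + (y - y') ^ 2 + (w - w') ^ 2 = 1)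
    (hQp : x ^ 2 + y ^ 2 + w ^ 2 + |y| + √2 * w - 1 / 4 ≤ s)
    (hQq : x' ^ 2 + y' ^ 2 + w' ^ 2 + |y'| + √2 * w' - 1 / 4 ≤ s) :
    0 ≤ (w - w') + 1 / 2 * x * (x - x') := by
  have hr : 1.4142 ≤ √2 := by
    apply Real.le_sqrt_of_sq_le; norm_num
  have h2 : √2 * √2 = 2 := Real.mul_self_sqrt (by norm_num)
  have hy0 := abs_nonneg y
  have hy'0 := abs_nonneg y'
  have hw0 : 0 ≤ w := le_trans (by positivity) hcell
  have hxa := abs_nonneg x
  have hyw : 2 * |y| ≤ √2 * w := by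
    have := mul_le_mul_of_nonneg_left hcell (show 0 ≤ √2 by positivity)
    rw [← mul_assoc, h2] at this
    exact this
  have hy6 : |y| ≤ 1 / 6 := by linarith
  have hx2 : |x| ≤ 1 / 2 := by linarith
  rcases le_or_gt 0 (x * (x - x')) with hX | hX
  · rcases le_or_gt 0 (w - w') with hU | hU
    · linarith
    -- `U < 0`
    have hw' : 0 ≤ w' := by linarith
    have hyy : -(|y'|) ≤ 2 * (y * y') := by
      have h3 : |y * y'| ≤ 1 / 2 * |y'| := by
        rw [abs_mul]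
        exact mul_le_mul_of_nonneg_right (by linarith) hy'0
      have h4 := neg_abs_le (y * y')
      linarith
    have hww : 0 ≤ w * w' := mul_nonneg hw0 hw'
    have hsum : (1 / 2 + 2 * (x * x')) + √2 * (w + w') ≤ 2 * s := by
      have e : x ^ 2 + y ^ 2 + w ^ 2 + (x' ^ 2 + y' ^ 2 + w' ^ 2) =
          1 + 2 * (x * x') + 2 * (y * y') + 2 * (w * w') := by linear_combination hd
      rw [mul_add]
      linarith
    set v := 1 / 2 + 2 * (x * x') with hv
    have hsw : 0 ≤ √2 * (w + w') := by positivity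
    have h5 : √2 * (w' - w) ≤ 2 * s - v := by
      have : √2 * (w' - w) ≤ √2 * (w + w') :=
        mul_le_mul_of_nonneg_left (by linarith) (by positivity)
      linarith
    have h6 := pairN (s := s) (v := v) (w := w' - w) hs (by linarith) h5
    have h7 : 1 / 2 - v ≤ |x| := by
      have h8 : |x * x'| ≤ |x| * (1 / 2) := by
        rw [abs_mul]
        exact mul_le_mul_of_nonneg_left hqx hxa
      have h9 := neg_abs_le (x * x')
      linarith
    have h8 : (1 / 2 - v) ^ 2 ≤ x ^ 2 := by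
      rw [← sq_abs x]
      exact pow_le_pow_left₀ (by linarith) h7 2
    have h9 : x * (x - x') = x ^ 2 - x * x' := by ring
    have h10 : x * x' = (v - 1 / 2) / 2 := by rw [hv]; ring
    have h11 : 1 / 2 * x * (x - x') = 1 / 2 * (x ^ 2 - x * x') := by ring
    rw [h11, h10]
    linarith
  · -- `x X < 0`
    have hXa : (x - x') ^ 2 ≤ 1 / 4 := by
      have h3 : (x - x') ^ 2 ≤ x' ^ 2 := by
        have e1 : (x - x') ^ 2 = x' ^ 2 + x * (x - x') - x * x' := by ring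
        have e2 : x * (x - x') = x ^ 2 - x * x' := by ring
        have e3 := sq_nonneg x
        linarith
      have h4 : x' ^ 2 ≤ 1 / 4 := by
        rw [← sq_abs]
        have := pow_le_pow_left₀ (abs_nonneg x') hqx 2
        linarith
      linarith
    have hYa : (y - y') ^ 2 ≤ 4 / 9 := by
      have h3 : |y - y'| ≤ 2 / 3 := (abs_sub y y').trans (by linarith)
      rw [← sq_abs]
      have := pow_le_pow_left₀ (abs_nonneg _) h3 2
      linarith
    have hU2 : 11 / 36 ≤ (w - w') ^ 2 := by linarith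
    have hxx : -(1 / 16) ≤ x * (x - x') := by
      have h4 : x' ^ 2 ≤ 1 / 4 := by
        rw [← sq_abs]
        have := pow_le_pow_left₀ (abs_nonneg x') hqx 2
        linarith
      have e1 : x * (x - x') = (x - x' / 2) ^ 2 - x' ^ 2 / 4 := by ring
      have e2 := sq_nonneg (x - x' / 2)
      linarith
    rcases le_or_gt 0 (w - w') with hU | hU
    · have : 1 / 2 ≤ w - w' := by
        by_contra hcon
        rw [not_le] at hcon
        have := mul_le_mul hcon.le hcon.le hU (by norm_num)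
        linarith
      linarith
    · exfalso
      have h5 : 1 / 2 ≤ w' - w := by
        by_contra hcon
        rw [not_le] at hcon
        have := mul_le_mul hcon.le hcon.le (by linarith) (by norm_num)
        linarith
      have h6 : 1 / 2 ≤ w' := by linarith
      have h7 := mul_le_mul hr h6 (by norm_num) (by positivity)
      norm_num at h7
      linarith

/-- range of the coordinate of `q` -/
theorem rng {x' Qi Qo c : ℝ} (e : Qo - Qi = 2 * x') (hi : 0 < Qi) (hi1 : Qi ≤ 3 / 25)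
    (ho : Qo ≤ 3 / 25) (hc1 : c ≤ 1)
    (hc : c * Qi ≤ Qi - 1 / 3 * pp (-Qo)) : x' ≤ 3 / 50 ∧ -x' ≤ 6 / 25 - 9 / 50 * c := by
  refine ⟨by linarith, ?_⟩
  rcases le_total 0 Qo with h | h
  · linarith
  · have e1 : pp (-Qo) = -Qo := max_eq_left (by linarith)
    rw [e1] at hc
    have h1 : 0 ≤ (4 / 3 - c) * (3 / 25 - Qi) := mul_nonneg (by linarith) (by linarith)
    nlinarith

/-! ### in the cell -/

section
variable {a : Fin 4 → E3} (h : Gram4 (al a))
include h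

theorem pl_opp {x : E3} (hx : Pl a x) : |eX a x| + |eY a x| - √2 * eW a x ≤ 3 / 2 := by
  have hp := (pl_iff h).1 hx
  have h20 := hp 2 0 (by decide)
  have h21 := hp 2 1 (by decide)
  have h30 := hp 3 0 (by decide)
  have h31 := hp 3 1 (by decide)
  have hs := bar_sum h x
  have h2 : √2 * √2 = 2 := Real.mul_self_sqrt (by norm_num)
  have e : √2 * eW a x = -(bar a 2 x + bar a 3 x) := by
    unfold eW
    linear_combination -(bar a 2 x + bar a 3 x) / 2 * h2
  rw [e]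
  unfold eX eY
  rcases abs_cases ((bar a 0 x - bar a 1 x) / 2) with ⟨e1, _⟩ | ⟨e1, _⟩ <;>
    rcases abs_cases ((bar a 2 x - bar a 3 x) / 2) with ⟨e2, _⟩ | ⟨e2, _⟩ <;>
    rw [e1, e2] <;> linarith

omit h in
theorem cell_abs {x : E3} (h2 : bar a 2 x < 0) (h3 : bar a 3 x < 0) : √2 * |eY a x| ≤ eW a x :=
  (edge_cell_iff x).1 ⟨h2.le, h3.le⟩

theorem Q_abs {x : E3} {s2 s3 s : ℝ} (h2 : Qv a 2 x ≤ s2) (h3 : Qv a 3 x ≤ s3) (k2 : s2 ≤ s)
    (k3 : s3 ≤ s) :
    eX a x ^ 2 + eY a x ^ 2 + eW a x ^ 2 + |eY a x| + √2 * eW a x - 1 / 4 ≤ s := by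
  rw [Qv2_e h] at h2
  rw [Qv3_e h] at h3
  rcases abs_cases (eY a x) with ⟨e, _⟩ | ⟨e, _⟩ <;> rw [e] <;> linarith

/-- the density of the flux, up to the factor `wn` -/
noncomputable def fd (a : Fin 4 → E3) (z : E3 × E3) : ℝ :=
  (eW a z.1 - eW a z.2) + 1 / 2 * eX a z.1 * (eX a z.1 - eX a z.2)

/-- **all pairs of the cell** -/
theorem fd_nonneg {z : E3 × E3} (h2 : bar a 2 z.1 < 0) (h3 : bar a 3 z.1 < 0)
    (p1 : Pl a z.1) (p2 : Pl a z.2) (hd : ‖z.1 - z.2‖ = 1)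
    (q1 : ∀ j, Qv a j z.1 ≤ 3 / 25) (q2 : ∀ j, Qv a j z.2 ≤ 3 / 25) : 0 ≤ fd a z := by
  have e := norm_sub_sq_e h z.1 z.2
  rw [hd, one_pow] at e
  obtain ⟨a1, a2, a3⟩ := pl_e h p1
  obtain ⟨b1, b2, b3⟩ := pl_e h p2
  refine geoN (s := 3 / 25) le_rfl a1 (cell_abs h2 h3) ?_ b2 b3 e.symm
    (Q_abs h (q1 2) (q1 3) le_rfl le_rfl) (Q_abs h (q2 2) (q2 3) le_rfl le_rfl)
  linarith [abs_nonneg (eX a z.2), abs_nonneg (eY a z.2)]

/-- **density of a loss** -/
theorem den_fd (i : Bool) {z : E3 × E3} {c : ℝ} (h2 : bar a 2 z.1 < 0) (h3 : bar a 3 z.1 < 0)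
    (p1 : Pl a z.1) (p2 : Pl a z.2) (hd : ‖z.1 - z.2‖ = 1)
    (q1 : ∀ j, Qv a j z.1 ≤ 3 / 25) (q2 : ∀ j, Qv a j z.2 ≤ 3 / 25)
    (hc0 : 0 ≤ c) (hc1 : c ≤ wt a i z.1) (hz : Qv a (vi i) z.2 ≤ 0 → c = 0)
    (hc : 0 < Qv a (vi i) z.2 → c * Qv a (vi i) z.2 ≤
      wt a i z.1 * (Qv a (vi i) z.2 - 1 / 3 * pp (-Qv a (vo i) z.2))) :
    c ≤ 231 / 200 * (wn a i z.1 * fd a z) := by
  have hw := wn_ge h i p1
  have hn := fd_nonneg h h2 h3 p1 p2 hd q1 q2
  rcases le_or_gt (Qv a (vi i) z.2) 0 with hq | hq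
  · rw [hz hq]
    positivity
  have hD := D4_pos (a := a) z.1
  set D := 4 * DD (eX a z.1) (eY a z.1) (eW a z.1) with hDd
  have hwp : 0 < wn a i z.1 := by linarith
  have hwt : wt a i z.1 = wn a i z.1 / D := rfl
  have hwtp : 0 < wt a i z.1 := by rw [hwt]; positivity
  set c' := c / wt a i z.1 with hc'
  have ec : c = c' * wt a i z.1 := by rw [hc']; field_simp
  have c0 : 0 ≤ c' := div_nonneg hc0 hwtp.le
  have c1 : c' ≤ 1 := by rw [hc', div_le_one hwtp]; exact hc1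
  have hcq : c' * Qv a (vi i) z.2 ≤ Qv a (vi i) z.2 - 1 / 3 * pp (-Qv a (vo i) z.2) := by
    have k := hc hq
    rw [ec] at k
    have k2 : wt a i z.1 * (c' * Qv a (vi i) z.2) ≤
        wt a i z.1 * (Qv a (vi i) z.2 - 1 / 3 * pp (-Qv a (vo i) z.2)) := by
      linarith
    exact le_of_mul_le_mul_left k2 hwtp
  have e := norm_sub_sq_e h z.1 z.2
  rw [hd, one_pow] at e
  obtain ⟨a1, a2, a3⟩ := pl_e h p1
  obtain ⟨b1, b2, b3⟩ := pl_e h p2
  have b4 := pl_opp h p2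
  have b5 : √2 * eW a z.2 ≤ 1 / 2 := by
    linarith [abs_nonneg (eX a z.2), abs_nonneg (eY a z.2)]
  have hDe : D = 1 + eX a z.1 ^ 2 / 2 + 4 * (eY a z.1 ^ 2 + eW a z.1 ^ 2) := by
    rw [hDd]
    unfold DD
    ring
  have main : c' ≤ 231 / 200 * fd a z * D := by
    rw [hDe]
    cases i
    · have r := rng (x' := eX a z.2) (Qi := Qv a 0 z.2) (Qo := Qv a 1 z.2)
        (by rw [Qv0_e h, Qv1_e h]; ring) hq (q2 0) (q2 1) c1 hcq
      have hq' : 0 < Qv a 0 z.2 := hq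
      rw [Qv0_e h] at hq'
      exact geoL a1 (cell_abs h2 h3) b4 b5 b3 e.symm (by linarith) r.1 r.2 c0 c1
    · have r := rng (x' := -eX a z.2) (Qi := Qv a 1 z.2) (Qo := Qv a 0 z.2)
        (by rw [Qv0_e h, Qv1_e h]; ring) hq (q2 1) (q2 0) c1 hcq
      have hq' : 0 < Qv a 1 z.2 := hq
      rw [Qv1_e h] at hq'
      have k := geoL (x := -eX a z.1) (x' := -eX a z.2) (y := eY a z.1) (y' := eY a z.2)
        (w := eW a z.1) (w' := eW a z.2) (c := c') (by rw [abs_neg]; exact a1)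
        (cell_abs h2 h3) (by rw [abs_neg]; exact b4) b5 b3 (by rw [e]; ring)
        (by linarith [neg_sq (eX a z.2)]) r.1 r.2 c0 c1
      have e3 : 1 / 2 * -eX a z.1 * (-eX a z.1 - -eX a z.2) =
        1 / 2 * eX a z.1 * (eX a z.1 - eX a z.2) := by ring
      rw [e3, neg_sq] at k
      exact k
  rw [ec, hwt]
  have k := mul_le_mul_of_nonneg_right main (show 0 ≤ wn a i z.1 / D by positivity)
  refine k.trans (le_of_eq ?_)
  field_simp

end

end Helper97.MEI.Mass
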