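import Pool.Agent.Helper97.MEI.MassB

/-!
# Project MEI (M2): the mass of a loss is at most a flux
-/

namespace Helper97.MEI.Mass

open Set Metric MeasureTheory Helper80.CW Helper14.CW Helper14.MEI2
open Helper93.MEI Helper37.MEI Helper41.MEI
open Pool.Agent.Helper8.MEI (DD DD_pos)
open Pool.Agent.Helper73.MEI (PM pf pr)
open Pool.Agent.Helper95.MEI.Fub (Zp Zp_meas eX_cont eY_cont eW_cont int_cont)
open scoped RealInnerProductSpace Real

/-- admissible density of a loss of the vertex `i` of the edge `01` -/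
structure Den (a : Fin 4 → E3) (i : Bool) (z : E3 × E3) (c : ℝ) : Prop where
  nn : 0 ≤ c
  le : c ≤ wt a i z.1
  zero : Qv a (vi i) z.2 ≤ 0 → c = 0
  loss : 0 < c → c * Qv a (vi i) z.2 ≤
    wt a i z.1 * (Qv a (vi i) z.2 - 1 / 3 * pp (-Qv a (vo i) z.2))

section
variable {a : Fin 4 → E3} {K : Set E3} {σ : Measure (E3 × E3)}

theorem Den.fd_le (h : Gram4 (al a)) {i : Bool} {z : E3 × E3} {c : ℝ} (hc : Den a i z c)
    (h2 : bar a 2 z.1 < 0) (h3 : bar a 3 z.1 < 0) (p1 : Pl a z.1) (p2 : Pl a z.2)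
    (hd : ‖z.1 - z.2‖ = 1) (q1 : ∀ j, Qv a j z.1 ≤ 3 / 25) (q2 : ∀ j, Qv a j z.2 ≤ 3 / 25) :
    c ≤ 231 / 200 * (wn a i z.1 * fd a z) := by
  rcases eq_or_lt_of_le hc.nn with h0 | h0
  · rw [← h0]
    have hw := wn_ge h i p1
    have hn := fd_nonneg h h2 h3 p1 p2 hd q1 q2
    positivity
  · exact den_fd h i h2 h3 p1 p2 hd q1 q2 hc.nn hc.le hc.zero fun _ => hc.loss h0

/-- **the densities of `l2`** -/
theorem den_cs (h : Gram4 (al a)) (i : Bool) {z : E3 × E3} (p1 : Pl a z.1) :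
    Den a i z (cs a i z) where
  nn := cs_nonneg i z
  le := cs_le h i p1
  zero := cs_zero i
  loss h0 := by
    have hD := D4_pos (a := a) z.1
    have hq : 0 < Qv a (vi i) z.2 := by
      by_contra hcon
      rw [cs_zero i (not_lt.1 hcon)] at h0
      exact lt_irrefl _ h0
    have hpq : pp (Qv a (vi i) z.2) = Qv a (vi i) z.2 := max_eq_left hq.le
    have e := ls_eq h i (z := z) p1
    rw [hpq] at e
    have hls : 0 < ls a i z := by rw [e]; exact mul_pos h0 hq
    rw [← e, wt_wn, div_mul_eq_mul_div]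
    unfold ls at hls ⊢
    apply div_le_div_of_nonneg_right _ hD.le
    have hin : 0 < pp (wn a i z.1 * pp (Qv a (vi i) z.2) -
        wn a (!i) z.1 * pp (-Qv a (vo i) z.2)) := by
      by_contra hcon
      have h5 : pp (wn a i z.1 * pp (Qv a (vi i) z.2) -
        wn a (!i) z.1 * pp (-Qv a (vo i) z.2)) = 0 := le_antisymm (not_lt.1 hcon) (pp_nonneg _)
      rw [h5, zero_div] at hls
      exact lt_irrefl _ hls
    have hin2 : 0 < wn a i z.1 * pp (Qv a (vi i) z.2) -
        wn a (!i) z.1 * pp (-Qv a (vo i) z.2) := by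
      by_contra hcon
      rw [show pp (wn a i z.1 * pp (Qv a (vi i) z.2) -
        wn a (!i) z.1 * pp (-Qv a (vo i) z.2)) = 0 from max_eq_right (not_lt.1 hcon)] at hin
      exact lt_irrefl _ hin
    rw [show pp (wn a i z.1 * pp (Qv a (vi i) z.2) -
        wn a (!i) z.1 * pp (-Qv a (vo i) z.2)) = _ from max_eq_left hin2.le, hpq]
    have w1 := wn_ge h (!i) p1
    have w2 := wn_add (a := a) i z.1
    have w3 := pp_nonneg (-Qv a (vo i) z.2)
    have w4 : 1 / 3 * wn a i z.1 ≤ wn a (!i) z.1 := by linarith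
    have w5 := mul_le_mul_of_nonneg_right w4 w3
    linarith

theorem wn_cont' (a : Fin 4 → E3) (i : Bool) : Continuous (wn a i) := wn_cont a i

/-- **the mass of a loss is at most a flux** -/
theorem mass_flux [IsFiniteMeasure σ] (h : PM K σ) (ha : ∀ i j, i ≠ j → dist (a i) (a j) = 1)
    (hp : ∀ x ∈ K, Pl a x) (hQ : ∀ j, ∀ q ∈ K, Qv a j q ≤ 3 / 25) (i : Bool)
    {d : E3 × E3 → ℝ} (hd : ∀ z : E3 × E3, Pl a z.1 → Pl a z.2 → Den a i z (d z)) :
    ∫ z in Zp a 2 3, d z ∂σ ≤ 231 / 200 *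
      ((∫ z in Zp a 2 3, wn a i z.1 * (eW a z.1 - eW a z.2) ∂σ) +
        1 / 2 * ∫ z in Zp a 2 3, wn a i z.1 * (eX a z.1 * (eX a z.1 - eX a z.2)) ∂σ) := by
  have hG := gram_of_dist ha
  have c1 := (wn_cont a i).comp (continuous_fst (X := E3) (Y := E3))
  have cW1 := (eW_cont a).comp (continuous_fst (X := E3) (Y := E3))
  have cW2 := (eW_cont a).comp (continuous_snd (X := E3) (Y := E3))
  have cX1 := (eX_cont a).comp (continuous_fst (X := E3) (Y := E3))
  have cX2 := (eX_cont a).comp (continuous_snd (X := E3) (Y := E3))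
  have i1 : Integrable (fun z : E3 × E3 => wn a i z.1 * (eW a z.1 - eW a z.2)) σ :=
    int_cont h.cpt h.mem (c1.mul (cW1.sub cW2))
  have i2 : Integrable (fun z : E3 × E3 => wn a i z.1 * (eX a z.1 * (eX a z.1 - eX a z.2))) σ :=
    int_cont h.cpt h.mem (c1.mul (cX1.mul (cX1.sub cX2)))
  have e : 231 / 200 * ((∫ z in Zp a 2 3, wn a i z.1 * (eW a z.1 - eW a z.2) ∂σ) +
      1 / 2 * ∫ z in Zp a 2 3, wn a i z.1 * (eX a z.1 * (eX a z.1 - eX a z.2)) ∂σ) =
      ∫ z in Zp a 2 3, 231 / 200 * (wn a i z.1 * fd a z) ∂σ := by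
    rw [← integral_const_mul, ← integral_add i1.integrableOn (i2.integrableOn.const_mul _),
      ← integral_const_mul]
    refine integral_congr_ae (Filter.Eventually.of_forall fun z => ?_)
    simp only
    unfold fd
    ring
  rw [e]
  have i3 : IntegrableOn (fun z : E3 × E3 => 231 / 200 * (wn a i z.1 * fd a z)) (Zp a 2 3) σ := by
    refine Integrable.integrableOn ?_
    refine (int_cont h.cpt h.mem ?_).const_mul _
    exact c1.mul ((cW1.sub cW2).add ((continuous_const.mul cX1).mul (cX1.sub cX2)))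
  have key : ∀ᵐ z ∂(σ.restrict (Zp a 2 3)), 0 ≤ d z ∧
      d z ≤ 231 / 200 * (wn a i z.1 * fd a z) := by
    filter_upwards [ae_restrict_mem (Zp_meas a 2 3), ae_restrict_of_ae (s := Zp a 2 3) h.ae]
      with z hz hm
    have hD := hd z (hp _ hm.1) (hp _ hm.2.1)
    exact ⟨hD.nn, hD.fd_le hG hz.1 hz.2 (hp _ hm.1) (hp _ hm.2.1) hm.2.2.1
      (fun j => hQ j _ hm.1) fun j => hQ j _ hm.2.1⟩
  exact integral_mono_of_nonneg (key.mono fun z hz => hz.1) i3 (key.mono fun z hz => hz.2)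

end

end Helper97.MEI.Mass
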