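import Pool.Agent.Helper97.MEI.MassC
import Pool.Agent.Helper53.MEI.MassG

/-!
# Project MEI (M2): the mass of a loss arc, sharper constants
-/

namespace Helper97.MEI.Mass

open Set Metric MeasureTheory Helper80.CW Helper14.CW Helper14.MEI2
open Helper93.MEI Helper37.MEI Helper41.MEI
open Helper22.Wedge (co)
open Helper53.MEI (nn)
open Helper21.Mom (sg)
open Helper53.MEI.MG (qI F1_fr F2_fr)
open Pool.Agent.Helper8.MEI (DD DD_pos)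
open Pool.Agent.Helper73.MEI (PM pf pr)
open Pool.Agent.Helper95.MEI.Fub (Zp Zp_meas eX_cont eY_cont eW_cont int_cont)
open scoped RealInnerProductSpace Real

section
variable {a : Fin 4 → E3} {K : Set E3} {σ : Measure (E3 × E3)}

theorem wn_nn (i : Bool) (x : E3) : wn a i x = nn (sg i) (eX a x) := by
  unfold wn nn sg
  cases i
  · simp only [Bool.false_eq_true, if_false]; ring
  · simp only [if_true]; ring

/-- the number of the mass -/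
noncomputable def mN (x y τ τ' : ℝ) : ℝ :=
  231 / 200 * (0.052305 + 1 / 3 * (qI x τ + qI y τ') +
    1 / 2 * (0.003389 + 15 / 16 * ((0.0393 + 0.2358 * x) * x + (0.0393 + 0.2358 * y) * y)))

/-- **mass of a loss of the edge `01`** -/
theorem mass_fr [IsFiniteMeasure σ] (h : PM K σ) (ha : ∀ i j, i ≠ j → dist (a i) (a j) = 1)
    (hcomp : ∀ p : E3, (∀ q ∈ K, dist p q ≤ 1) → p ∈ K)
    (hp : ∀ x ∈ K, Pl a x) {b : OrthonormalBasis (Fin 3) ℝ E3} (hb : Fr a b)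
    {S : Fin 4 → ℝ} (hQ : ∀ x ∈ K, ∀ j, Qv a j x ≤ S j) (hS0 : ∀ j, 0 ≤ S j)
    (hS1 : ∀ j, S j ≤ 3 / 25) (i : Bool)
    {d : E3 × E3 → ℝ} (hd : ∀ z : E3 × E3, Pl a z.1 → Pl a z.2 → Den a i z (d z))
    {τ τ' : ℝ} (h0 : 0 ≤ τ) (h1 : τ ≤ 3 / 10) (h0' : 0 ≤ τ') (h1' : τ' ≤ 3 / 10) :
    ∫ z in Zp a 2 3, d z ∂σ ≤ mN (S 2) (S 3) τ τ' := by
  have hG := gram_of_dist ha
  have k := mass_flux h ha hp (fun j q hq => (hQ q hq j).trans (hS1 j)) i hd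
  have f1 := F1_fr ha h hcomp hp hb hQ hS0 i h0 h1 h0' h1'
  have f2 := F2_fr ha h hp hb hQ hS0 i
  have c2 : ∀ z : E3 × E3, ⟪b 2, z.1 - z.2⟫ = eW a z.1 - eW a z.2 := by
    intro z
    have e1 := (frame_e hG hb.1 hb.2.1 hb.2.2 z.1).2.2
    have e2 := (frame_e hG hb.1 hb.2.1 hb.2.2 z.2).2.2
    have e3 : z.1 - z.2 = (z.1 - cen a) - (z.2 - cen a) := by abel
    rw [e3, inner_sub_right, e1, e2]
    ring
  have c0 : ∀ z : E3 × E3, ⟪b 0, z.1 - z.2⟫ = eX a z.1 - eX a z.2 := by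
    intro z
    have e1 := (frame_e hG hb.1 hb.2.1 hb.2.2 z.1).1
    have e2 := (frame_e hG hb.1 hb.2.1 hb.2.2 z.2).1
    have e3 : z.1 - z.2 = (z.1 - cen a) - (z.2 - cen a) := by abel
    rw [e3, inner_sub_right, e1, e2]
  simp only [c2, ← wn_nn] at f1
  have e4 : ∀ z : E3 × E3, (eX a z.1 * nn (sg i) (eX a z.1)) * ⟪b 0, z.1 - z.2⟫ =
      wn a i z.1 * (eX a z.1 * (eX a z.1 - eX a z.2)) := by
    intro z
    rw [c0, ← wn_nn]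
    ring
  simp only [e4] at f2
  unfold mN
  linarith

/-- **mass of a loss, all twelve (edge, vertex)** -/
theorem mass_all [IsFiniteMeasure σ] (h : PM K σ) (ha : ∀ i j, i ≠ j → dist (a i) (a j) = 1)
    (hull : ∀ p, (∀ q ∈ K, ‖p - q‖ ≤ 1) → p ∈ K) (hp : ∀ x ∈ K, Pl a x)
    {B : Fin 3 → Bool → OrthonormalBasis (Fin 3) ℝ E3}
    (hB : ∀ m e, Fr (fun i => a (pr m e i)) (B m e)) {S : Fin 4 → ℝ} (hS0 : ∀ i, 0 ≤ S i)
    (hS1 : ∀ i, S i ≤ 3 / 25) (hQ : ∀ i, ∀ q ∈ K, Qv a i q ≤ S i) (m : Fin 3) (e i : Bool)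
    {d : E3 × E3 → ℝ}
    (hd : ∀ z : E3 × E3, Pl (ap a m e) z.1 → Pl (ap a m e) z.2 → Den (ap a m e) i z (d z))
    {τ τ' : ℝ} (h0 : 0 ≤ τ) (h1 : τ ≤ 3 / 10) (h0' : 0 ≤ τ') (h1' : τ' ≤ 3 / 10) :
    ∫ z in EE a m e, d z ∂σ ≤ mN (S (pf m e 2)) (S (pf m e 3)) τ τ' := by
  have ha' := hap ha m e
  have hb : Fr (ap a m e) (B m e) := hB m e
  have hcomp : ∀ p : E3, (∀ q ∈ K, dist p q ≤ 1) → p ∈ K := fun p hpp =>
    hull p fun q hq => by rw [← dist_eq_norm]; exact hpp q hq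
  exact mass_fr (S := fun j => S (pf m e j)) h ha' hcomp (fun x hx => Pl_perm _ (hp x hx)) hb
    (fun x hx j => hQ (pf m e j) x hx) (fun j => hS0 _) (fun j => hS1 _) i hd h0 h1 h0' h1'

/-- **mass of the arcs of `l2`** -/
theorem sm_l2 [IsFiniteMeasure σ] (h : PM K σ) (ha : ∀ i j, i ≠ j → dist (a i) (a j) = 1)
    (hull : ∀ p, (∀ q ∈ K, ‖p - q‖ ≤ 1) → p ∈ K) (hp : ∀ x ∈ K, Pl a x)
    {B : Fin 3 → Bool → OrthonormalBasis (Fin 3) ℝ E3}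
    (hB : ∀ m e, Fr (fun i => a (pr m e i)) (B m e)) {S : Fin 4 → ℝ} (hS0 : ∀ i, 0 ≤ S i)
    (hS1 : ∀ i, S i ≤ 3 / 25) (hQ : ∀ i, ∀ q ∈ K, Qv a i q ≤ S i) (m : Fin 3) (e i : Bool)
    {τ τ' : ℝ} (h0 : 0 ≤ τ) (h1 : τ ≤ 3 / 10) (h0' : 0 ≤ τ') (h1' : τ' ≤ 3 / 10) :
    sm σ a (l2 a) m e i ≤ mN (S (pf m e 2)) (S (pf m e 3)) τ τ' := by
  have hz : ∀ z : E3 × E3, Pl (ap a m e) z.1 → Pl (ap a m e) z.2 →
      Den (ap a m e) i z (den a (l2 a) m e i z) := by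
    intro z hz _
    rw [den_l2]
    exact den_cs (hgp ha m e) i hz
  exact mass_all h ha hull hp hB hS0 hS1 hQ m e i hz h0 h1 h0' h1'

/-- the number as a polynomial -/
theorem mN_le {x y τ τ' : ℝ} (h0 : 0 ≤ τ) (h0' : 0 ≤ τ')
    (hx : 0 ≤ x) (hy : 0 ≤ y) :
    mN x y τ τ' ≤ 0.06237 + (0.19661 - 0.34188 * τ) * x + (0.19661 - 0.34188 * τ') * y +
      0.12767 * (x ^ 2 + y ^ 2) + (0.17112 * τ ^ 3 - 0.08 * τ ^ 4 + 0.0673 * τ ^ 5) +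
      (0.17112 * τ' ^ 3 - 0.08 * τ' ^ 4 + 0.0673 * τ' ^ 5) := by
  have a1 : 0 ≤ τ ^ 3 := by positivity
  have a2 : 0 ≤ τ ^ 4 := by positivity
  have a3 : 0 ≤ τ ^ 5 := by positivity
  have b1 : 0 ≤ τ' ^ 3 := by positivity
  have b2 : 0 ≤ τ' ^ 4 := by positivity
  have b3 : 0 ≤ τ' ^ 5 := by positivity
  have c1 := sq_nonneg x
  have c2 := sq_nonneg y
  unfold mN qI
  linarith

/-- without slab -/
theorem mN_zero {x y : ℝ} (hx : 0 ≤ x) (hy : 0 ≤ y) :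
    mN x y 0 0 ≤ 0.06237 + 0.19661 * (x + y) + 0.12767 * (x ^ 2 + y ^ 2) := by
  have := mN_le (x := x) (y := y) (τ := 0) (τ' := 0) le_rfl le_rfl
    hx hy
  linarith

end

end Helper97.MEI.Mass
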