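import Pool.Agent.Helper72.MEI.EdgeSum
import Pool.Agent.Helper97.MEI.Core

/-!
# MEI M2: the missing part of the core, weight `4.58 - div F`
-/

set_option autoImplicit false

namespace Pool.Agent.Helper97.MEI

open Set MeasureTheory
open Helper80.CW Helper14.CW Helper14.MEI2 Helper22.Wedge Helper93.MEI Helper72.MEI
open Pool.Agent.Helper95.MEI.Cst (AsE AxE AsE_eq AxE_eq cs sh dvE dvp)
open scoped RealInnerProductSpace

/-- the weight -/
noncomputable def Wp (x : ℝ) : ℝ := 0.0492 - 1.08 * x ^ 2 + 7.5 * x ^ 4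

theorem Wp_pos (x : ℝ) : 0 ≤ Wp x := by
  unfold Wp
  nlinarith [sq_nonneg (x ^ 2 - 0.072)]

/-- the polynomial `n - (4.58 - W) D ^ 2`, `X = x ^ 2`, `t = r ^ 2` -/
noncomputable def ph (X t : ℝ) : ℝ :=
  41 / 128 + 23 / 256 * X + 9 / 32 * t - (4.5308 + 1.08 * X - 7.5 * X ^ 2) * (1 / 4 + X / 8 + t) ^ 2

theorem ph_zero {X : ℝ} (h0 : 0 ≤ X) (h1 : X ≤ 1 / 4) : 0 ≤ ph X 0 := by
  have key : ∀ u v : ℝ, 0 ≤ u → 0 ≤ v → 0 ≤
        (5942 / 625) * v ^ 4
        + (53339 / 2500) * u ^ 1 * v ^ 3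
        + (122509 / 10000) * u ^ 2 * v ^ 2
        + (3313 / 10000) * u ^ 3 * v ^ 1
        + (2079 / 80000) * u ^ 4 := by
    intro u v hu hv
    positivity
  have h := key X (1 / 4 - X) h0 (by linarith)
  refine h.trans_eq ?_
  unfold ph
  ring

theorem ph_a {R : ℝ} (h0 : 0 ≤ R) (h1 : R ≤ 1 / 10) :
    0 ≤ ph (1 / 4 - 1.73205 * R - R ^ 2) (R ^ 2) := by
  have key : ∀ u v : ℝ, 0 ≤ u → 0 ≤ v → 0 ≤
        (1299375 / 128) * v ^ 8
        + (365412627 / 2560) * u ^ 1 * v ^ 7
        + (179937928057477 / 256000000) * u ^ 2 * v ^ 6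
        + (426777866316793059 / 256000000000) * u ^ 3 * v ^ 5
        + (877809615070621828483 / 409600000000000) * u ^ 4 * v ^ 4
        + (157044574545004614483 / 102400000000000) * u ^ 5 * v ^ 3
        + (119679743515074673449 / 204800000000000) * u ^ 6 * v ^ 2
        + (10668853159041340483 / 102400000000000) * u ^ 7 * v ^ 1
        + (2938882250318338883 / 409600000000000) * u ^ 8 := by
    intro u v hu hv
    positivity
  have h := key R (1 / 10 - R) h0 (by linarith)
  refine h.trans_eq ?_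
  unfold ph
  ring

theorem ph_b {R : ℝ} (h0 : 1 / 10 ≤ R) (h1 : R ≤ 0.134) :
    0 ≤ ph (1 / 4 - 1.73205 * R - R ^ 2) (R ^ 2) := by
  have key : ∀ u v : ℝ, 0 ≤ u → 0 ≤ v → 0 ≤
        (9184007032244809009375 / 228581619826688) * v ^ 8
        + (26554964729869327763875 / 114290809913344) * u ^ 1 * v ^ 7
        + (245794536526448453629305 / 457163239653376) * u ^ 2 * v ^ 6
        + (1457599204198130697709429 / 2285816198266880) * u ^ 3 * v ^ 5
        + (205905355413897677487910643 / 457163239653376000) * u ^ 4 * v ^ 4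
        + (33840507953192381652433223 / 114290809913344000) * u ^ 5 * v ^ 3
        + (57628016409570326513618109 / 228581619826688000) * u ^ 6 * v ^ 2
        + (17155199478822977743780333 / 114290809913344000) * u ^ 7 * v ^ 1
        + (16398593288305526216158163 / 457163239653376000) * u ^ 8 := by
    intro u v hu hv
    positivity
  have h := key (R - 1 / 10) (0.134 - R) (by linarith) (by linarith)
  refine h.trans_eq ?_
  unfold ph
  ring

theorem ph_conc {X t T : ℝ} (hX0 : 0 ≤ X) (hX1 : X ≤ 1 / 4) (ht : 0 ≤ t) (htT : t ≤ T)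
    (h0 : 0 ≤ ph X 0) (hT : 0 ≤ ph X T) : 0 ≤ ph X t := by
  rcases eq_or_lt_of_le ht with h | h
  · rw [← h]; exact h0
  have hT0 : 0 < T := lt_of_lt_of_le h htT
  have hc : 0 ≤ 4.5308 + 1.08 * X - 7.5 * X ^ 2 := by nlinarith
  have e : T * ph X t = (T - t) * ph X 0 + t * ph X T
      + (4.5308 + 1.08 * X - 7.5 * X ^ 2) * (t * T * (T - t)) := by
    unfold ph; ring
  have h1 : 0 ≤ T * ph X t := by
    rw [e]
    have a1 := mul_nonneg (sub_nonneg.2 htT) h0
    have a2 := mul_nonneg ht hT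
    have a3 := mul_nonneg hc (mul_nonneg (mul_nonneg ht hT0.le) (sub_nonneg.2 htT))
    linarith
  exact nonneg_of_mul_nonneg_right h1 hT0

/-- **the divergence in the core** -/
theorem dv_core {x y w : ℝ} (hx : |x| ≤ 1 / 2)
    (h : x ^ 2 + y ^ 2 + w ^ 2 + √3 * √(y ^ 2 + w ^ 2) ≤ 1 / 4) :
    4.58 - dvp (x, y, w) ≤ Wp x := by
  set r := √(y ^ 2 + w ^ 2) with hr
  have hr0 : 0 ≤ r := Real.sqrt_nonneg _
  have hr2 : r ^ 2 = y ^ 2 + w ^ 2 := Real.sq_sqrt (by positivity)
  have hX1 : x ^ 2 ≤ 1 / 4 := by nlinarith [abs_le.1 hx]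
  have h3 := s3_lb
  have hle : r ^ 2 + 1.73205 * r ≤ 1 / 4 - x ^ 2 := by nlinarith
  set R := √(1.73205 ^ 2 / 4 + 1 / 4 - x ^ 2) - 1.73205 / 2 with hR
  have hRs : √(1.73205 ^ 2 / 4 + 1 / 4 - x ^ 2) ^ 2 = 1.73205 ^ 2 / 4 + 1 / 4 - x ^ 2 :=
    Real.sq_sqrt (by nlinarith)
  have hRe : R ^ 2 + 1.73205 * R = 1 / 4 - x ^ 2 := by
    rw [hR]; nlinarith
  have hrR : r ≤ R := by
    have : r + 1.73205 / 2 ≤ √(1.73205 ^ 2 / 4 + 1 / 4 - x ^ 2) := by
      apply Real.le_sqrt_of_sq_le
      nlinarith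
    linarith
  have hR0 : 0 ≤ R := hr0.trans hrR
  have hR1 : R ≤ 0.134 := by
    by_contra hc
    push Not at hc
    nlinarith [sq_nonneg x]
  have hXR : x ^ 2 = 1 / 4 - 1.73205 * R - R ^ 2 := by linarith
  have hT : 0 ≤ ph (x ^ 2) (R ^ 2) := by
    rw [hXR]
    rcases le_total R (1 / 10) with h5 | h5
    · exact ph_a hR0 h5
    · exact ph_b h5 hR1
  have h4 := ph_conc (sq_nonneg x) hX1 (sq_nonneg r) (pow_le_pow_left₀ hr0 hrR 2)
    (ph_zero (sq_nonneg x) hX1) hT
  have hD : 0 < (1 / 4 + x ^ 2 / 8 + (y ^ 2 + w ^ 2)) ^ 2 := by positivity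
  unfold ph at h4
  rw [hr2] at h4
  have h6 : 4.5308 + 1.08 * x ^ 2 - 7.5 * (x ^ 2) ^ 2 ≤ dvp (x, y, w) := by
    unfold dvp
    rw [le_div_iff₀ hD]
    linarith
  unfold Wp
  nlinarith

/-- Fubini with a weight -/
theorem lint_le_int {β : Type*} [MeasureSpace β] [SFinite (volume : Measure β)]
    {S : Set (ℝ × β)} (hS : MeasurableSet S) {w : ℝ → ℝ} (hw : Continuous w)
    (hw0 : ∀ x, 0 ≤ w x) {a b : ℝ} (hab : a ≤ b)
    {G : ℝ → ℝ} (hG : Continuous G) (hG0 : ∀ x ∈ Icc a b, 0 ≤ G x)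
    (h0 : ∀ q ∈ S, q.1 ∈ Icc a b)
    (h1 : ∀ x ∈ Icc a b, volume (Prod.mk x ⁻¹' S) ≤ ENNReal.ofReal (G x)) :
    ∫⁻ q in S, ENNReal.ofReal (w q.1) ≤ ENNReal.ofReal (∫ x in a..b, w x * G x) := by
  have hv : (volume : Measure (ℝ × β)) = (volume : Measure ℝ).prod volume := rfl
  have hm : Measurable fun q : ℝ × β => ENNReal.ofReal (w q.1) :=
    (hw.measurable.comp measurable_fst).ennreal_ofReal
  rw [← lintegral_indicator hS, hv, lintegral_prod _ (hm.indicator hS).aemeasurable]
  have hx : ∀ x : ℝ, ∫⁻ y, S.indicator (fun q : ℝ × β => ENNReal.ofReal (w q.1)) (x, y)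
      ≤ (Icc a b).indicator (fun x => ENNReal.ofReal (w x * G x)) x := by
    intro x
    have e : (fun y => S.indicator (fun q : ℝ × β => ENNReal.ofReal (w q.1)) (x, y))
        = (Prod.mk x ⁻¹' S).indicator (fun _ => ENNReal.ofReal (w x)) := by
      funext y
      by_cases hy : (x, y) ∈ S
      · rw [indicator_of_mem hy, indicator_of_mem (show y ∈ Prod.mk x ⁻¹' S from hy)]
      · rw [indicator_of_notMem hy, indicator_of_notMem (show y ∉ Prod.mk x ⁻¹' S from hy)]
    rw [e, lintegral_indicator_const (measurable_prodMk_left hS)]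
    by_cases hxI : x ∈ Icc a b
    · rw [indicator_of_mem hxI, ENNReal.ofReal_mul (hw0 x)]
      exact mul_le_mul_right (h1 x hxI) _
    · rw [indicator_of_notMem hxI]
      have : Prod.mk x ⁻¹' S = ∅ := by
        ext z
        simp only [mem_preimage, mem_empty_iff_false, iff_false]
        intro hz
        exact hxI (h0 _ hz)
      rw [this, measure_empty, mul_zero]
  calc ∫⁻ x, ∫⁻ y, S.indicator (fun q : ℝ × β => ENNReal.ofReal (w q.1)) (x, y)
      ≤ ∫⁻ x, (Icc a b).indicator (fun x => ENNReal.ofReal (w x * G x)) x :=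
        lintegral_mono hx
    _ = ∫⁻ x in Icc a b, ENNReal.ofReal (w x * G x) :=
        lintegral_indicator measurableSet_Icc _
    _ = ENNReal.ofReal (∫ x in Icc a b, w x * G x) := by
        rw [ofReal_integral_eq_lintegral_ofReal]
        · exact (hw.mul hG).continuousOn.integrableOn_compact isCompact_Icc
        · filter_upwards [ae_restrict_mem measurableSet_Icc] with x hx
          exact mul_nonneg (hw0 x) (hG0 x hx)
    _ = ENNReal.ofReal (∫ x in a..b, w x * G x) := by
        rw [intervalIntegral.integral_of_le hab, integral_Icc_eq_integral_Ioc]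

/-- **the weighted layer** -/
theorem layer_w {s1 s2 : ℝ} (h1 : 0 ≤ s1) (h2 : 0 ≤ s2) :
    ∫⁻ q in Lay s1 s2, ENNReal.ofReal (Wp q.1) ≤ ENNReal.ofReal (0.0013 * (s1 + s2)) := by
  have key := lint_le_int (S := Lay s1 s2) (Lay_meas s1 s2) (w := Wp) (by unfold Wp; fun_prop)
    Wp_pos (a := -(1 / 2)) (b := 1 / 2) (by norm_num)
    (G := fun x => 0.6158 * (2 * (Pp x - 0.86602) *
      (0.57736 * ((1 / 2 * (1 + 1.15471 * (Pp x - 0.86602)) + x) * s1
        + (1 / 2 * (1 + 1.15471 * (Pp x - 0.86602)) - x) * s2)))) (by unfold Pp; fun_prop)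
    (by
      intro x hx
      have hx' : |x| ≤ 1 / 2 := abs_le.2 ⟨hx.1, hx.2⟩
      have hP := Pp_anti hx'
      have h' : (0.8662 : ℝ) ≤ Pp (1 / 2) := by unfold Pp; norm_num
      have hp : 0 ≤ Pp x - 0.86602 := by linarith
      have ha : 0 ≤ 1 / 2 * (1 + 1.15471 * (Pp x - 0.86602)) + x := by
        have := hx.1; linarith
      have hb : 0 ≤ 1 / 2 * (1 + 1.15471 * (Pp x - 0.86602)) - x := by
        have := hx.2; linarith
      positivity)
    (by
      intro q hq
      exact abs_le.1 hq.1)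
    (by
      intro x hx
      exact lay_slice h1 h2 (abs_le.2 ⟨hx.1, hx.2⟩))
  refine le_trans key (ENNReal.ofReal_le_ofReal ?_)
  have hd : ∀ x ∈ uIcc (-(1 / 2) : ℝ) (1 / 2), HasDerivAt
      (fun x : ℝ => (s1 + s2) * ((105711851571716047707819 / 39062500000000000000000000) * x ^ 1 + (-9226220543307425401877 / 390625000000000000000000) * x ^ 3 + (4163226899338806174897 / 31250000000000000000000) * x ^ 5 + (-1600632058073387951583 / 6250000000000000000000) * x ^ 7 + (4318021479524265107 / 125000000000000000000) * x ^ 9 + (66167605814155839 / 5500000000000000000) * x ^ 11 + (934815512546375019 / 52000000000000000000) * x ^ 13 + (618381322408073 / 200000000000000000) * x ^ 15 + (7697692810059 / 10880000000000000) * x ^ 17)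
        + (s1 - s2) * ((18309710745711 / 7812500000000000) * x ^ 2 + (-4702504945089 / 156250000000000) * x ^ 4 + (113972242447 / 625000000000) * x ^ 6 + (-3215910478389 / 10000000000000) * x ^ 8 + (-1933239441 / 31250000000) * x ^ 10 + (-22221143 / 800000000) * x ^ 12))
      (Wp x * (0.6158 * (2 * (Pp x - 0.86602) *
      (0.57736 * ((1 / 2 * (1 + 1.15471 * (Pp x - 0.86602)) + x) * s1
        + (1 / 2 * (1 + 1.15471 * (Pp x - 0.86602)) - x) * s2))))) x := by
    intro x _
    have f1 := ((((((((((hasDerivAt_pow 1 x).const_mul ((105711851571716047707819 / 39062500000000000000000000) : ℝ)).add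
        ((hasDerivAt_pow 3 x).const_mul ((-9226220543307425401877 / 390625000000000000000000) : ℝ))).add
        ((hasDerivAt_pow 5 x).const_mul ((4163226899338806174897 / 31250000000000000000000) : ℝ))).add
        ((hasDerivAt_pow 7 x).const_mul ((-1600632058073387951583 / 6250000000000000000000) : ℝ))).add
        ((hasDerivAt_pow 9 x).const_mul ((4318021479524265107 / 125000000000000000000) : ℝ))).add
        ((hasDerivAt_pow 11 x).const_mul ((66167605814155839 / 5500000000000000000) : ℝ))).add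
        ((hasDerivAt_pow 13 x).const_mul ((934815512546375019 / 52000000000000000000) : ℝ))).add
        ((hasDerivAt_pow 15 x).const_mul ((618381322408073 / 200000000000000000) : ℝ))).add
        ((hasDerivAt_pow 17 x).const_mul ((7697692810059 / 10880000000000000) : ℝ)))
    have f2 := (((((((hasDerivAt_pow 2 x).const_mul ((18309710745711 / 7812500000000000) : ℝ)).add
        ((hasDerivAt_pow 4 x).const_mul ((-4702504945089 / 156250000000000) : ℝ))).add
        ((hasDerivAt_pow 6 x).const_mul ((113972242447 / 625000000000) : ℝ))).add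
        ((hasDerivAt_pow 8 x).const_mul ((-3215910478389 / 10000000000000) : ℝ))).add
        ((hasDerivAt_pow 10 x).const_mul ((-1933239441 / 31250000000) : ℝ))).add
        ((hasDerivAt_pow 12 x).const_mul ((-22221143 / 800000000) : ℝ)))
    refine ((f1.const_mul (s1 + s2)).add (f2.const_mul (s1 - s2))).congr_deriv ?_
    unfold Pp Wp
    push_cast
    ring
  rw [intervalIntegral.integral_eq_sub_of_hasDerivAt hd (by
    apply Continuous.intervalIntegrable; unfold Pp Wp; fun_prop)]
  have h12 : 0 ≤ s1 + s2 := by linarith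
  norm_num
  linarith

end Pool.Agent.Helper97.MEI
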